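import Pool.Agent.V11129.Rep

/-!
# The Tutte polynomial of a finite multigraph

A multigraph with vertex set `V` and edge set `E` is given by the map `ends : E → Sym2 V` sending
every edge to its unordered pair of ends (loops and parallel edges are allowed).
-/

set_option autoImplicit false

namespace Pool.Agent.V11129

open Finset

universe u v

/-- The spanning subgraph `(V, A)` of a multigraph, as a simple graph: two distinct vertices are
adjacent when some edge in `A` joins them. It has the same connected components as `(V, A)`. -/
def spanningSub {V : Type u} {E : Type v} (ends : E → Sym2 V) (A : Finset E) : SimpleGraph V :=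
  SimpleGraph.fromEdgeSet {e | ∃ a ∈ A, ends a = e}

/-- The rank `r(A) = |V| - k(A)`, where `k(A)` is the number of connected components of `(V, A)`. -/
noncomputable def rk {V : Type u} {E : Type v} [Fintype V] (ends : E → Sym2 V)
    (A : Finset E) : ℕ :=
  Fintype.card V - Nat.card (spanningSub ends A).ConnectedComponent

/-- The Tutte polynomial
`T(G; x, y) = ∑ (x - 1) ^ (r(E) - r(A)) (y - 1) ^ (|A| - r(A))`, summed over all `A ⊆ E`,
with `x = X 0` and `y = X 1`. -/
noncomputable def tuttePoly {V : Type u} {E : Type v} [Fintype V] [Fintype E]
    (ends : E → Sym2 V) : MvPolynomial (Fin 2) ℤ :=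
  ∑ A : Finset E, (MvPolynomial.X 0 - 1) ^ (rk ends univ - rk ends A) *
    (MvPolynomial.X 1 - 1) ^ (A.card - rk ends A)

end Pool.Agent.V11129
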