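import Pool.Agent.V11129.TutteDef

/-!
# Counting components

How the number of connected components changes when an edge is added, and under contraction of
vertices.
-/

set_option autoImplicit false

namespace Pool.Agent.V11129

open Finset

universe u v

section Contract

variable {V : Type u} {W : Type v}

/-- A surjection with connected fibres that respects adjacency up to reachability induces a
bijection of connected components. -/
theorem card_comp_of_map (G : SimpleGraph V) (H : SimpleGraph W) (f : V → W)
    (hf : Function.Surjective f)
    (h1 : ∀ a b, G.Adj a b → H.Reachable (f a) (f b))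
    (h2 : ∀ a b, f a = f b → G.Reachable a b)
    (h3 : ∀ a b, H.Adj (f a) (f b) → G.Reachable a b) :
    Nat.card G.ConnectedComponent = Nat.card H.ConnectedComponent := by
  have r1 : ∀ a b, G.Reachable a b → H.Reachable (f a) (f b) := by
    rintro a b ⟨w⟩
    induction w with
    | nil => exact SimpleGraph.Reachable.refl _
    | cons hadj _ ih => exact (h1 _ _ hadj).trans ih
  have r2 : ∀ x y, H.Reachable x y → ∀ a b, f a = x → f b = y → G.Reachable a b := by
    rintro x y ⟨w⟩
    induction w with
    | nil =>
      intro a b ha hb
      exact h2 a b (ha.trans hb.symm)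
    | @cons x z y hadj _ ih =>
      intro a b ha hb
      obtain ⟨c, hc⟩ := hf z
      refine (h3 a c ?_).trans (ih c b hc hb)
      rw [ha, hc]
      exact hadj
  apply Nat.card_congr
  refine Equiv.ofBijective
    (fun C => C.lift (fun v => H.connectedComponentMk (f v)) ?_) ⟨?_, ?_⟩
  · intro a b p _
    exact SimpleGraph.ConnectedComponent.eq.2 (r1 a b ⟨p⟩)
  · intro C D
    induction C using SimpleGraph.ConnectedComponent.ind with
    | _ a =>
      induction D using SimpleGraph.ConnectedComponent.ind with
      | _ b =>
        intro h
        simp only [SimpleGraph.ConnectedComponent.lift_mk] at h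
        rw [SimpleGraph.ConnectedComponent.eq] at h ⊢
        exact r2 _ _ h a b rfl rfl
  · intro D
    induction D using SimpleGraph.ConnectedComponent.ind with
    | _ y =>
      obtain ⟨a, rfl⟩ := hf y
      exact ⟨G.connectedComponentMk a, rfl⟩

end Contract

section ListGraph

variable {V : Type u} [DecidableEq V] [Fintype V]

theorem card_image_rep_cons (l : List (V × V)) (p : V × V) (h : rep l p.1 ≠ rep l p.2) :
    ((univ : Finset V).image (rep (p :: l))).card + 1 = ((univ : Finset V).image (rep l)).card := by
  have : (univ : Finset V).image (rep (p :: l)) =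
      ((univ : Finset V).image (rep l)).erase (rep l p.1) := by
    ext x
    simp only [Finset.mem_image, Finset.mem_univ, true_and, Finset.mem_erase, rep]
    constructor
    · rintro ⟨v, hv⟩
      split_ifs at hv with h1
      · refine ⟨?_, p.2, hv⟩
        rw [← hv]
        exact fun hh => h hh.symm
      · refine ⟨?_, v, hv⟩
        rw [← hv]
        exact h1
    · rintro ⟨hx, v, hv⟩
      refine ⟨v, ?_⟩
      rw [if_neg (by rw [hv]; exact hx), hv]
  rw [this, Finset.card_erase_of_mem (Finset.mem_image_of_mem _ (Finset.mem_univ _))]
  have : 0 < ((univ : Finset V).image (rep l)).card :=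
    Finset.card_pos.2 ⟨_, Finset.mem_image_of_mem _ (Finset.mem_univ p.1)⟩
  omega

theorem card_image_rep_cons' (l : List (V × V)) (p : V × V) (h : rep l p.1 = rep l p.2) :
    (univ : Finset V).image (rep (p :: l)) = (univ : Finset V).image (rep l) := by
  ext x
  simp only [Finset.mem_image, Finset.mem_univ, true_and, rep]
  constructor
  · rintro ⟨v, hv⟩
    split_ifs at hv with h1
    · exact ⟨p.2, hv⟩
    · exact ⟨v, hv⟩
  · rintro ⟨v, hv⟩
    refine ⟨v, ?_⟩
    split_ifs with h1
    · rw [← h, ← h1, hv]
    · exact hv

theorem card_le_card_image_add (l : List (V × V)) :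
    Fintype.card V ≤ ((univ : Finset V).image (rep l)).card + l.length := by
  induction l with
  | nil =>
    have : (univ : Finset V).image (rep ([] : List (V × V))) = univ := by
      ext x
      simp [rep]
    rw [this]
    simp
  | cons p l ih =>
    rw [List.length_cons]
    by_cases h : rep l p.1 = rep l p.2
    · rw [card_image_rep_cons' l p h]
      omega
    · have := card_image_rep_cons l p h
      omega

end ListGraph

section Sub

variable {V : Type u} {E : Type v}

/-- The number of connected components. -/
noncomputable def nc (G : SimpleGraph V) : ℕ := Nat.card G.ConnectedComponent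

theorem exists_list (ends : E → Sym2 V) (A : Finset E) :
    ∃ l : List (V × V), l.length = A.card ∧ spanningSub ends A = listGraph l := by
  refine ⟨A.toList.map fun a => (ends a).out, ?_, ?_⟩
  · simp
  · unfold spanningSub listGraph
    congr 1
    ext e
    simp only [Set.mem_ofPred_eq, List.mem_map, Finset.mem_toList]
    constructor
    · rintro ⟨a, ha, rfl⟩
      refine ⟨_, ⟨a, ha, rfl⟩, ?_⟩
      exact Quot.out_eq (ends a)
    · rintro ⟨p, ⟨a, ha, rfl⟩, rfl⟩
      exact ⟨a, ha, (Quot.out_eq (ends a)).symm⟩

variable [Fintype V]

theorem nc_listGraph [DecidableEq V] (l : List (V × V)) :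
    nc (listGraph l) = ((univ : Finset V).image (rep l)).card := card_components l

theorem card_le_nc_add (ends : E → Sym2 V) (A : Finset E) :
    Fintype.card V ≤ nc (spanningSub ends A) + A.card := by
  classical
  obtain ⟨l, hl, h⟩ := exists_list ends A
  rw [h, nc_listGraph, ← hl]
  exact card_le_card_image_add l

theorem nc_le_card (G : SimpleGraph V) : nc G ≤ Fintype.card V := by
  classical
  rw [← Nat.card_eq_fintype_card]
  exact Nat.card_le_card_of_surjective G.connectedComponentMk
    (fun C => C.exists_rep)

theorem nc_pos [Nonempty V] (G : SimpleGraph V) : 0 < nc G := by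
  have : Nonempty G.ConnectedComponent := ⟨G.connectedComponentMk (Classical.arbitrary V)⟩
  exact Nat.card_pos

theorem nc_of_connected (G : SimpleGraph V) (h : G.Connected) : nc G = 1 := by
  obtain ⟨v⟩ := h.nonempty
  rw [nc, Nat.card_eq_one_iff_unique]
  exact ⟨h.preconnected.subsingleton_connectedComponent, ⟨G.connectedComponentMk v⟩⟩

/-- Adding an edge between two different components. -/
theorem nc_add_edge (ends : E → Sym2 V) (A : Finset E) (a b : V)
    (h : ¬ (spanningSub ends A).Reachable a b) :
    nc (spanningSub ends A) = nc (spanningSub ends A ⊔ SimpleGraph.fromEdgeSet {s(a, b)}) + 1 := by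
  classical
  obtain ⟨l, -, hl⟩ := exists_list ends A
  have h2 : listGraph l ⊔ SimpleGraph.fromEdgeSet {s(a, b)} = listGraph ((a, b) :: l) := by
    rw [listGraph, listGraph, ← SimpleGraph.fromEdgeSet_union]
    congr 1
    ext e
    simp only [Set.mem_union, Set.mem_ofPred_eq, Set.mem_singleton_iff, List.mem_cons]
    constructor
    · rintro (⟨p, hp, rfl⟩ | rfl)
      · exact ⟨p, Or.inr hp, rfl⟩
      · exact ⟨(a, b), Or.inl rfl, rfl⟩
    · rintro ⟨p, rfl | hp, rfl⟩
      · exact Or.inr rfl
      · exact Or.inl ⟨p, hp, rfl⟩
  rw [hl] at h ⊢
  rw [h2, nc_listGraph, nc_listGraph]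
  rw [reachable_iff_rep] at h
  exact (card_image_rep_cons l (a, b) h).symm

end Sub

end Pool.Agent.V11129
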