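import Pool.Agent.H997R3.Gon.Example

/-!
# Many copies of a network glued at one node
-/

set_option autoImplicit false

namespace Pool.Agent.V11129.GonWedge

open Finset
open Pool.Agent.H997R3.Gon

section lower

variable {N A : Type} (R : Net N A) [Fintype A] [DecidableEq A] [DecidableEq N]

/-- The structure of divisors of positive rank and small degree on the graph of a network. -/
lemma lowerB (M : ℕ) (hM : (R.graph M).gon < M) :
    ∃ c : A → ℤ, (∀ e, 1 ≤ c e) ∧ ∑ e, c e = ((R.graph M).gon : ℤ) ∧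
    ∃ s : A → ℤ, ∀ (e0 : A) (b : Bool), c e0 = 1 → ∃ F : N → ℤ,
      s e0 + F (R.a e0) - F (R.b e0) = (if b then (R.len e0 : ℤ) else 0) ∧
      ∀ e, c e = 1 →
        0 ≤ s e + F (R.a e) - F (R.b e) ∧ s e + F (R.a e) - F (R.b e) ≤ R.len e := by
  classical
  obtain ⟨D, hD, hsum⟩ := (R.graph M).exists_gon
  have hdegM : ∑ v, D v < (M : ℤ) := by
    rw [hsum]
    exact_mod_cast hM
  -- the functions are constant on clusters
  have hconst : ∀ f : R.Vert → ℤ, (∀ v, 0 ≤ D v - (R.graph M).lap f v) →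
      ∀ x y, R.node x = R.node y → f (R.endV x) = f (R.endV y) := by
    intro f hf x y hxy
    by_cases hne : x = y
    · rw [hne]
    · exact (R.graph M).thick_const D f hD.1 hf M hdegM _ _
        (fun i => Sum.inr (⟨(x, y), hne, hxy⟩, i))
        (fun i j h => by simpa using h) (fun i => ⟨rfl, rfl⟩)
  -- weighted sums over one arc
  have hweight : ∀ (f : R.Vert → ℤ), (∀ v, 0 ≤ D v - (R.graph M).lap f v) → ∀
      (g : R.Vert → ℤ), ∑ v, g v * (R.graph M).lap f v =
        ∑ t : (Σ e : A, Fin (R.len e)), (g ⟨t.1, t.2.castSucc⟩ - g ⟨t.1, t.2.succ⟩) *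
          (f ⟨t.1, t.2.castSucc⟩ - f ⟨t.1, t.2.succ⟩) := by
    intro f hf g
    rw [MGraph.sum_mul_lap, Fintype.sum_sum_type]
    have : ∑ t : R.Thick × Fin M, (g ((R.graph M).src (Sum.inr t)) -
        g ((R.graph M).tgt (Sum.inr t))) * (f ((R.graph M).src (Sum.inr t)) -
        f ((R.graph M).tgt (Sum.inr t))) = 0 := by
      refine Finset.sum_eq_zero fun t _ => ?_
      have h1 : f ((R.graph M).src (Sum.inr t)) = f ((R.graph M).tgt (Sum.inr t)) :=
        hconst f hf _ _ t.1.2.2
      rw [h1]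
      ring
    rw [this, add_zero]
    rfl
  -- chips on an arc
  have harc0 : ∀ (f : R.Vert → ℤ), (∀ v, 0 ≤ D v - (R.graph M).lap f v) → ∀ (e0 : A),
      ∑ i : Fin (R.len e0 + 1), (R.graph M).lap f ⟨e0, i⟩ = 0 := by
    intro f hf e0
    have h1 := hweight f hf (fun v => if v.1 = e0 then 1 else 0)
    rw [Fintype.sum_sigma] at h1
    rw [Finset.sum_eq_single e0] at h1
    · simp only [if_true, one_mul, sub_self, zero_mul, Finset.sum_const_zero] at h1
      exact h1
    · intro b _ hb
      simp [hb]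
    · simp
  have harc1 : ∀ (f : R.Vert → ℤ), (∀ v, 0 ≤ D v - (R.graph M).lap f v) → ∀ (e0 : A),
      ∑ i : Fin (R.len e0 + 1), (i.val : ℤ) * (R.graph M).lap f ⟨e0, i⟩ =
        f ⟨e0, Fin.last _⟩ - f ⟨e0, 0⟩ := by
    intro f hf e0
    have h1 := hweight f hf (fun v => if v.1 = e0 then (v.2.val : ℤ) else 0)
    rw [Fintype.sum_sigma, Fintype.sum_sigma] at h1
    rw [Finset.sum_eq_single e0, Finset.sum_eq_single e0] at h1
    · simp only [if_true] at h1
      rw [h1, ← Net.sum_path (R.len e0) (fun i => f ⟨e0, i⟩)]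
      refine Finset.sum_congr rfl fun i _ => ?_
      simp only [Fin.val_castSucc, Fin.val_succ]
      push_cast
      ring
    · intro b _ hb
      simp [hb]
    · simp
    · intro b _ hb
      simp [hb]
    · simp
  -- each arc carries at least one chip
  have hfull : ∀ v, ∃ f : R.Vert → ℤ, (∀ w, 0 ≤ D w - (R.graph M).lap f w) ∧
      1 ≤ D v - (R.graph M).lap f v := by
    intro v
    obtain ⟨f, hf⟩ := hD.2 v
    refine ⟨f, fun w => ?_, ?_⟩
    · have := hf w
      split_ifs at this <;> linarith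
    · have := hf v
      simp only [if_true] at this
      linarith
  have hge : ∀ e, 1 ≤ ∑ i : Fin (R.len e + 1), D ⟨e, i⟩ := by
    intro e
    obtain ⟨f, hf, hf1⟩ := hfull ⟨e, 0⟩
    have h1 := harc0 f hf e
    have h2 : D ⟨e, 0⟩ - (R.graph M).lap f ⟨e, 0⟩ ≤
        ∑ i : Fin (R.len e + 1), (D ⟨e, i⟩ - (R.graph M).lap f ⟨e, i⟩) :=
      Finset.single_le_sum (f := fun i : Fin (R.len e + 1) =>
        D ⟨e, i⟩ - (R.graph M).lap f ⟨e, i⟩) (fun i _ => hf _) (Finset.mem_univ 0)
    rw [Finset.sum_sub_distrib, h1] at h2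
    linarith
  refine ⟨fun e => ∑ i : Fin (R.len e + 1), D ⟨e, i⟩, hge, ?_,
    fun e => ∑ i : Fin (R.len e + 1), (i.val : ℤ) * D ⟨e, i⟩, ?_⟩
  · rw [← hsum, Fintype.sum_sigma]
  intro e0 c hone0
  obtain ⟨f, hf, hf1⟩ := hfull (R.endV (e0, c))
  -- the node potential
  set F : N → ℤ := fun u => if h : ∃ x, R.node x = u then f (R.endV h.choose) else 0 with hF
  have hFx : ∀ x, F (R.node x) = f (R.endV x) := by
    intro x
    have hex : ∃ y, R.node y = R.node x := ⟨x, rfl⟩
    simp only [hF, hex, dif_pos]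
    exact hconst f hf _ _ hex.choose_spec
  have hFa : ∀ e, F (R.a e) = f ⟨e, 0⟩ := fun e => hFx (e, false)
  have hFb : ∀ e, F (R.b e) = f ⟨e, Fin.last _⟩ := fun e => hFx (e, true)
  set X : ∀ e, Fin (R.len e + 1) → ℤ := fun e i => D ⟨e, i⟩ - (R.graph M).lap f ⟨e, i⟩ with hX
  have hX0 : ∀ e i, 0 ≤ X e i := fun e i => hf _
  have hXsum : ∀ e, ∑ i : Fin (R.len e + 1), D ⟨e, i⟩ = 1 → ∑ i, X e i = 1 := by
    intro e he
    simp only [hX]
    rw [Finset.sum_sub_distrib, harc0 f hf e, he]
    ring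
  have hpos : ∀ e, ∑ i : Fin (R.len e + 1), (i.val : ℤ) * D ⟨e, i⟩ + F (R.a e) - F (R.b e) =
      ∑ i : Fin (R.len e + 1), (i.val : ℤ) * X e i := by
    intro e
    rw [hFa, hFb]
    simp only [hX, mul_sub]
    rw [Finset.sum_sub_distrib, harc1 f hf e]
    ring
  have hXe : ∀ e (j : Fin (R.len e + 1)), ∑ i : Fin (R.len e + 1), D ⟨e, i⟩ = 1 → 1 ≤ X e j →
      ∑ i : Fin (R.len e + 1), (i.val : ℤ) * X e i = j.val := by
    intro e j he hj
    have h1 : ∀ i, i ≠ j → X e i = 0 := by
      intro i hij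
      have h2 : X e i + X e j ≤ ∑ i, X e i := by
        have h3 : ∑ l ∈ ({i, j} : Finset (Fin (R.len e + 1))), X e l ≤ ∑ l, X e l :=
          Finset.sum_le_sum_of_subset_of_nonneg (Finset.subset_univ _) fun l _ _ => hX0 e l
        rwa [Finset.sum_pair hij] at h3
      rw [hXsum e he] at h2
      have := hX0 e i
      linarith
    have h4 : X e j = 1 := by
      have := hXsum e he
      rw [Finset.sum_eq_single j (fun i _ hi => h1 i hi) (by simp)] at this
      exact this
    rw [Finset.sum_eq_single j (fun i _ hi => by rw [h1 i hi, mul_zero]) (by simp), h4, mul_one]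
  refine ⟨F, ?_, fun e he => ?_⟩
  · rw [hpos e0]
    have h1 : 1 ≤ X e0 (if c then Fin.last _ else 0) := hf1
    rw [hXe e0 _ hone0 h1]
    cases c <;> simp
  · rw [hpos e]
    constructor
    · exact Finset.sum_nonneg fun i _ => mul_nonneg (by positivity) (hX0 e i)
    · calc ∑ i : Fin (R.len e + 1), (i.val : ℤ) * X e i
          ≤ ∑ i : Fin (R.len e + 1), (R.len e : ℤ) * X e i := by
            refine Finset.sum_le_sum fun i _ => ?_
            have hi : (i.val : ℤ) ≤ R.len e := by
              have := i.isLt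
              exact_mod_cast Nat.lt_succ_iff.1 this
            exact mul_le_mul_of_nonneg_right hi (hX0 e i)
        _ = R.len e := by rw [← Finset.mul_sum, hXsum e he, mul_one]

end lower

/-- The quasi-metric determined by the positions of the chips, as in `Net.complete_lower`. -/
lemma quasi {n : ℕ} (L : Fin n → Fin n → ℕ) (hs : ∀ u v, L u v = L v u) (s : Net.Pair n → ℤ)
    (hsF : ∀ (e0 : Net.Pair n) (c : Bool), ∃ F : Fin n → ℤ,
      s e0 + F e0.1.1 - F e0.1.2 = (if c then (L e0.1.1 e0.1.2 : ℤ) else 0) ∧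
      ∀ e : Net.Pair n, 0 ≤ s e + F e.1.1 - F e.1.2 ∧
        s e + F e.1.1 - F e.1.2 ≤ (L e.1.1 e.1.2 : ℤ)) :
    ∃ S : Fin n → Fin n → ℤ, (∀ u, S u u = 0) ∧ (∀ u v, u ≠ v → S u v + S v u = (L u v : ℤ)) ∧
      ∀ u v w, S u w ≤ S u v + S v w := by
  set S : Fin n → Fin n → ℤ := fun u v =>
    if h : u < v then s ⟨(u, v), h⟩ else if h : v < u then (L u v : ℤ) - s ⟨(v, u), h⟩ else 0
    with hS
  have hSd : ∀ u, S u u = 0 := by
    intro u
    simp [hS]
  have hSlt : ∀ u v (h : u < v), S u v = s ⟨(u, v), h⟩ := by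
    intro u v h
    simp [hS, h]
  have hSgt : ∀ u v (h : v < u), S u v = (L u v : ℤ) - s ⟨(v, u), h⟩ := by
    intro u v h
    have h' : ¬ u < v := not_lt_of_gt h
    simp [hS, h, h']
  have hLip : ∀ F : Fin n → ℤ, (∀ e : Net.Pair n, 0 ≤ s e + F e.1.1 - F e.1.2 ∧
      s e + F e.1.1 - F e.1.2 ≤ (L e.1.1 e.1.2 : ℤ)) →
      ∀ u v, F v - F u ≤ S u v := by
    intro F hF u v
    rcases lt_trichotomy u v with h | h | h
    · rw [hSlt u v h]
      have := (hF ⟨(u, v), h⟩).1
      linarith
    · subst h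
      rw [hSd]
      linarith
    · rw [hSgt u v h, hs u v]
      have := (hF ⟨(v, u), h⟩).2
      simp only at this
      linarith
  refine ⟨S, hSd, ?_, ?_⟩
  · intro u v huv
    rcases lt_or_gt_of_ne huv with h | h
    · rw [hSlt u v h, hSgt v u h, hs u v]
      ring
    · rw [hSlt v u h, hSgt u v h]
      ring
  · intro u v w
    rcases lt_trichotomy u w with h | h | h
    · obtain ⟨F, hF1, hF⟩ := hsF ⟨(u, w), h⟩ false
      have h1 := hLip F hF u v
      have h2 := hLip F hF v w
      simp only [Bool.false_eq_true, if_false] at hF1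
      rw [hSlt u w h]
      linarith
    · subst h
      rw [hSd]
      by_cases huv : u = v
      · subst huv
        rw [hSd]
        norm_num
      · have h1 : S u v + S v u = (L u v : ℤ) := by
          rcases lt_or_gt_of_ne huv with h | h
          · rw [hSlt u v h, hSgt v u h, hs u v]
            ring
          · rw [hSlt v u h, hSgt u v h]
            ring
        rw [h1]
        positivity
    · obtain ⟨F, hF1, hF⟩ := hsF ⟨(w, u), h⟩ true
      have h1 := hLip F hF u v
      have h2 := hLip F hF v w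
      simp only [if_true] at hF1
      rw [hSgt u w h, hs u w]
      linarith

/-! ### The wedge of `m + 1` copies of a complete network on `n + 1` nodes -/

/-- the arcs of the wedge -/
structure Arc (m n : ℕ) where
  /-- the copy -/
  fst : Fin (m + 1)
  /-- the arc in the copy -/
  snd : Net.Pair (n + 1)
deriving DecidableEq, Fintype

/-- an arc as a pair -/
def arcEquiv (m n : ℕ) : Fin (m + 1) × Net.Pair (n + 1) ≃ Arc m n where
  toFun x := ⟨x.1, x.2⟩
  invFun e := (e.1, e.2)
  left_inv _ := rfl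
  right_inv _ := rfl

lemma arc_sum (m n : ℕ) (c : Arc m n → ℤ) : ∑ e, c e = ∑ i, ∑ p, c ⟨i, p⟩ := by
  rw [← Fintype.sum_prod_type' (fun i p => c ⟨i, p⟩)]
  exact (Fintype.sum_equiv (arcEquiv m n) _ _ (fun _ => rfl)).symm

lemma arc_card (m n : ℕ) : Fintype.card (Arc m n) = (m + 1) * Fintype.card (Net.Pair (n + 1)) := by
  rw [← Fintype.card_congr (arcEquiv m n), Fintype.card_prod, Fintype.card_fin]

section wedge

variable {n : ℕ} (m : ℕ) (L : Fin (n + 1) → Fin (n + 1) → ℕ) (hL : ∀ u v, u < v → 1 ≤ L u v)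

/-- the node `v` of the copy `i`; the nodes `0` of all copies are identified -/
def nd (i : Fin (m + 1)) (v : Fin (n + 1)) : Fin (m + 1) × Fin (n + 1) :=
  if v = 0 then (0, 0) else (i, v)

/-- the wedge of `m + 1` copies of the complete network -/
def wedge : Net (Fin (m + 1) × Fin (n + 1)) (Arc m n) where
  a e := nd m e.1 e.2.1.1
  b e := nd m e.1 e.2.1.2
  len e := L e.2.1.1 e.2.1.2
  pos e := hL _ _ e.2.2

/-- a function on the nodes of copy `i`, extended to the wedge -/
def spread (i : Fin (m + 1)) (F : Fin (n + 1) → ℤ) (x : Fin (m + 1) × Fin (n + 1)) : ℤ :=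
  if x.2 = 0 then F 0 else if x.1 = i then F x.2 else F 0

lemma spread_nd_self (i : Fin (m + 1)) (F : Fin (n + 1) → ℤ) (v : Fin (n + 1)) :
    spread m i F (nd m i v) = F v := by
  unfold spread nd
  by_cases hv : v = 0
  · simp [hv]
  · simp [hv]

lemma spread_nd_ne (i j : Fin (m + 1)) (hij : j ≠ i) (F : Fin (n + 1) → ℤ) (v : Fin (n + 1)) :
    spread m i F (nd m j v) = F 0 := by
  unfold spread nd
  by_cases hv : v = 0
  · simp [hv]
  · simp [hv, hij]

theorem wedge_upper (M k : ℕ) (hk : 2 ≤ k) (T : Fin (n + 1) → Fin (n + 1) → ℤ)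
    (h0 : ∀ u v, 0 ≤ T u v)
    (hd : ∀ u, T u u = 0) (hc : ∀ u v, u ≠ v → T u v + T v u = k * (L u v : ℤ))
    (ht : ∀ u v w, T u w ≤ T u v + T v w) :
    ((((wedge m L hL).graph M).subdiv k).gon) ≤ (m + 1) * Fintype.card (Net.Pair (n + 1)) := by
  have key : ∀ F : Fin (n + 1) → ℤ, (∀ u v, F v - F u ≤ T u v) → ∀ e : Net.Pair (n + 1),
      0 ≤ T e.1.1 e.1.2 + F e.1.1 - F e.1.2 ∧
      T e.1.1 e.1.2 + F e.1.1 - F e.1.2 ≤ k * (L e.1.1 e.1.2 : ℤ) := by
    rintro F hF ⟨⟨u, v⟩, huv⟩
    have h1 := hF u v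
    have h2 := hF v u
    have h3 := hc u v (ne_of_lt huv)
    simp only
    constructor <;> linarith
  have hs0 : ∀ e : Net.Pair (n + 1), 0 ≤ T e.1.1 e.1.2 ∧
      T e.1.1 e.1.2 ≤ k * (L e.1.1 e.1.2 : ℤ) := by
    intro e
    have := key (fun _ => 0) (fun u v => by simpa using h0 u v) e
    simpa using this
  -- spreading keeps the bounds
  have key' : ∀ (i : Fin (m + 1)) (F : Fin (n + 1) → ℤ), (∀ u v, F v - F u ≤ T u v) →
      ∀ e : Arc m n,
      0 ≤ T e.2.1.1 e.2.1.2 + spread m i F ((wedge m L hL).a e) -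
        spread m i F ((wedge m L hL).b e) ∧
      T e.2.1.1 e.2.1.2 + spread m i F ((wedge m L hL).a e) -
        spread m i F ((wedge m L hL).b e) ≤ k * ((wedge m L hL).len e : ℤ) := by
    rintro i F hF ⟨j, e⟩
    simp only [wedge]
    by_cases hij : j = i
    · subst hij
      rw [spread_nd_self, spread_nd_self]
      exact key F hF e
    · rw [spread_nd_ne m i j hij, spread_nd_ne m i j hij]
      have := hs0 e
      constructor
      · linarith [this.1]
      · linarith [this.2]
  rw [← arc_card]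
  refine (wedge m L hL).upper M k hk (fun e => T e.2.1.1 e.2.1.2) ?_ ?_ ?_
  · intro e
    exact hs0 e.2
  · rintro ⟨i, ⟨⟨x, y⟩, hxy⟩⟩ p hp0 hp1
    have h3 := hc x y (ne_of_lt hxy)
    have hp1' : p ≤ k * (L x y : ℤ) := hp1
    rcases le_or_gt p (T x y) with hp | hp
    · have hF : ∀ u v, min (T x v) (T x y - p) - min (T x u) (T x y - p) ≤ T u v := by
        intro u v
        have h1 := ht x u v
        have h2 := h0 u v
        omega
      refine ⟨spread m i (fun v => min (T x v) (T x y - p)), ?_,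
        key' i (fun v => min (T x v) (T x y - p)) hF⟩
      simp only [wedge]
      rw [spread_nd_self, spread_nd_self, hd x]
      have := h0 x y
      omega
    · have hF : ∀ u v, min (T y v) (p - T x y) - min (T y u) (p - T x y) ≤ T u v := by
        intro u v
        have h1 := ht y u v
        have h2 := h0 u v
        omega
      refine ⟨spread m i (fun v => min (T y v) (p - T x y)), ?_,
        key' i (fun v => min (T y v) (p - T x y)) hF⟩
      simp only [wedge]
      rw [spread_nd_self, spread_nd_self, hd y]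
      omega
  · rintro ⟨j, u⟩
    by_cases hu : u = 0
    · subst hu
      -- the common node (or an isolated one): use `T 0 v` in all copies
      have hnd : ∀ (i : Fin (m + 1)) (v : Fin (n + 1)),
          (fun x : Fin (m + 1) × Fin (n + 1) => T 0 x.2) (nd m i v) = T 0 v := by
        intro i v
        unfold nd
        by_cases hv : v = 0
        · simp [hv]
        · simp [hv]
      refine ⟨fun x => T 0 x.2, ?_, ?_, ?_⟩
      · rintro ⟨i, e⟩
        have e1 := hnd i e.1.1
        have e2 := hnd i e.1.2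
        have := key (fun v => T 0 v) (fun u v => by have := ht 0 u v; linarith) e
        simp only at e1 e2 this
        simp only [wedge]
        rw [e1, e2]
        exact this
      · rintro ⟨i, e⟩ he
        have e1 := hnd i e.1.1
        have e2 := hnd i e.1.2
        simp only at e1 e2
        simp only [wedge] at he ⊢
        rw [e1, e2]
        have h3 : e.1.1 = 0 := by
          unfold nd at he
          by_contra h
          rw [if_neg h] at he
          exact h (Prod.mk.inj he).2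
        rw [h3, hd 0]
        ring
      · rintro ⟨i, e⟩ he
        exfalso
        simp only [wedge] at he
        have h3 : e.1.2 ≠ 0 := by
          intro h
          have := e.2
          rw [h] at this
          exact absurd this (Fin.not_lt_zero _)
        unfold nd at he
        rw [if_neg h3] at he
        exact h3 (Prod.mk.inj he).2
    · refine ⟨spread m j (fun v => T u v), key' j _ (fun x v => by have := ht u x v; linarith),
        ?_, ?_⟩
      · rintro ⟨i, ⟨⟨x, y⟩, hxy⟩⟩ hx
        simp only [wedge] at hx ⊢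
        have h1 : x = u ∧ i = j := by
          unfold nd at hx
          by_cases h : x = 0
          · rw [if_pos h] at hx
            exact absurd (Prod.mk.inj hx).2.symm hu
          · rw [if_neg h] at hx
            exact ⟨(Prod.mk.inj hx).2, (Prod.mk.inj hx).1⟩
        obtain ⟨rfl, rfl⟩ := h1
        rw [spread_nd_self, spread_nd_self, hd x]
        ring
      · rintro ⟨i, ⟨⟨x, y⟩, hxy⟩⟩ hx
        simp only [wedge] at hx ⊢
        have h1 : y = u ∧ i = j := by
          unfold nd at hx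
          by_cases h : y = 0
          · rw [if_pos h] at hx
            exact absurd (Prod.mk.inj hx).2.symm hu
          · rw [if_neg h] at hx
            exact ⟨(Prod.mk.inj hx).2, (Prod.mk.inj hx).1⟩
        obtain ⟨rfl, rfl⟩ := h1
        have h3 := hc x y (ne_of_lt hxy)
        rw [spread_nd_self, spread_nd_self, hd y]
        linarith

/-- Either one copy behaves well, or the gonality is large. -/
theorem wedge_lower (M K : ℕ) (hK : (m + 1) * K ≤ M)
    (hcard : Fintype.card (Net.Pair (n + 1)) + 1 = K)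
    (hs : ∀ u v, L u v = L v u)
    (hg : ((wedge m L hL).graph M).gon < (m + 1) * K) :
    ∃ S : Fin (n + 1) → Fin (n + 1) → ℤ, (∀ u, S u u = 0) ∧
      (∀ u v, u ≠ v → S u v + S v u = (L u v : ℤ)) ∧ ∀ u v w, S u w ≤ S u v + S v w := by
  obtain ⟨c, hc1, hcs, s, hsF⟩ := lowerB (wedge m L hL) M (lt_of_lt_of_le hg hK)
  -- some copy has one chip on each arc
  obtain ⟨i, hi⟩ : ∃ i, ∑ p : Net.Pair (n + 1), c ⟨i, p⟩ < K := by
    by_contra hne
    push Not at hne
    have h1 : ∑ i : Fin (m + 1), (K : ℤ) ≤ ∑ i : Fin (m + 1), ∑ p : Net.Pair (n + 1), c ⟨i, p⟩ :=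
      Finset.sum_le_sum (fun i _ => hne i)
    rw [← arc_sum, hcs] at h1
    simp only [Finset.sum_const, Finset.card_univ, Fintype.card_fin, nsmul_eq_mul] at h1
    have h2 : (((wedge m L hL).graph M).gon : ℤ) < ((m + 1) * K : ℕ) := by exact_mod_cast hg
    push_cast at h1 h2
    linarith
  have hone : ∀ p, c ⟨i, p⟩ = 1 := by
    have h2 : ∀ p ∈ (Finset.univ : Finset (Net.Pair (n + 1))), 0 ≤ c ⟨i, p⟩ - 1 := by
      intro p _
      have := hc1 ⟨i, p⟩
      linarith
    have h1 : ∑ p : Net.Pair (n + 1), (c ⟨i, p⟩ - 1) ≤ 0 := by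
      rw [Finset.sum_sub_distrib]
      simp only [Finset.sum_const, Finset.card_univ, nsmul_eq_mul, mul_one]
      have : ((Fintype.card (Net.Pair (n + 1)) + 1 : ℕ) : ℤ) = K := by rw [hcard]
      push_cast at this
      linarith
    have h3 := (Finset.sum_eq_zero_iff_of_nonneg h2).1 (le_antisymm h1 (Finset.sum_nonneg h2))
    intro p
    have := h3 p (Finset.mem_univ p)
    linarith
  refine quasi L hs (fun p => s ⟨i, p⟩) ?_
  intro e0 b
  obtain ⟨F, hF1, hF2⟩ := hsF ⟨i, e0⟩ b (hone e0)
  exact ⟨fun v => F (nd m i v), hF1, fun e => hF2 ⟨i, e⟩ (hone e)⟩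

theorem wedge_connected (M : ℕ) (hM : 0 < M) (hn : 1 ≤ n) :
    ((wedge m L hL).graph M).Connected := by
  set R := wedge m L hL with hR
  set G := SimpleGraph.fromRel (fun x y => ∃ e, (R.graph M).src e = x ∧ (R.graph M).tgt e = y)
    with hG
  have hstep : ∀ ed, G.Reachable ((R.graph M).src ed) ((R.graph M).tgt ed) := by
    intro ed
    apply SimpleGraph.Adj.reachable
    rw [hG, SimpleGraph.fromRel_adj]
    exact ⟨(R.graph M).ne ed, Or.inl ⟨ed, rfl, rfl⟩⟩
  have hpath : ∀ (e : Arc m n) (i : Fin (R.len e + 1)),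
      G.Reachable ⟨e, 0⟩ ⟨e, i⟩ := by
    intro e i
    induction i using Fin.induction with
    | zero => exact SimpleGraph.Reachable.refl _
    | succ i ih => exact ih.trans (hstep (Sum.inl ⟨e, i⟩))
  have hthick : ∀ x y, R.node x = R.node y → G.Reachable (R.endV x) (R.endV y) := by
    intro x y hxy
    by_cases hne : x = y
    · rw [hne]
    · exact hstep (Sum.inr (⟨(x, y), hne, hxy⟩, ⟨0, hM⟩))
  have h0 : ∀ e : Arc m n, R.endV (e, false) = ⟨e, 0⟩ := fun e => rfl
  have h1 : ∀ e : Arc m n, R.endV (e, true) = ⟨e, Fin.last _⟩ :=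
    fun e => rfl
  -- every vertex reaches the start of the arc `(0, 1)` in copy `0`
  have h01 : (⟨0, by omega⟩ : Fin (n + 1)) < ⟨1, by omega⟩ := by
    rw [Fin.lt_def]
    norm_num
  set z : Arc m n := ⟨0, ⟨(⟨0, by omega⟩, ⟨1, by omega⟩), h01⟩⟩ with hz
  have hroot : ∀ (i : Fin (m + 1)) (y : Fin (n + 1)) (hy : (0 : Fin (n + 1)) < y),
      G.Reachable (⟨⟨i, ⟨(0, y), hy⟩⟩, 0⟩ : R.Vert) ⟨z, 0⟩ := by
    intro i y hy
    have := hthick (⟨i, ⟨(0, y), hy⟩⟩, false) (z, false) rfl
    rw [h0, h0] at this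
    exact this
  have hbase : ∀ e, G.Reachable (⟨e, 0⟩ : R.Vert) ⟨z, 0⟩ := by
    rintro ⟨i, ⟨⟨x, y⟩, hxy⟩⟩
    by_cases hx : x = 0
    · subst hx
      exact hroot i y hxy
    · have hx0 : (0 : Fin (n + 1)) < x := Fin.pos_of_ne_zero hx
      have s1 := hthick (⟨i, ⟨(x, y), hxy⟩⟩, false) (⟨i, ⟨(0, x), hx0⟩⟩, true) rfl
      have s2 := hpath ⟨i, ⟨(0, x), hx0⟩⟩ (Fin.last _)
      rw [h0, h1] at s1
      exact s1.trans (s2.symm.trans (hroot i x hx0))
  unfold MGraph.Connected
  rw [← hG, SimpleGraph.connected_iff]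
  constructor
  · rintro ⟨e, i⟩ ⟨e', i'⟩
    exact (hpath e i).symm.trans ((hbase e).trans ((hbase e').symm.trans (hpath e' i')))
  · exact ⟨⟨z, 0⟩⟩

end wedge

end Pool.Agent.V11129.GonWedge
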