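import Mathlib

/-!
# Computing the components of small multigraphs

Helper file: representatives of the connected components of a graph given by a list of edges, and
sums over all subsets of a list of edges.
-/

set_option autoImplicit false

namespace Pool.Agent.V11129

open Finset

section Rep

variable {V : Type*} [DecidableEq V]

/-- Representatives of the components of the graph with the listed edges. -/
def rep : List (V × V) → V → V
  | [], v => v
  | p :: l, v => if rep l v = rep l p.1 then rep l p.2 else rep l v

/-- The graph with the listed edges (loops are ignored). -/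
def listGraph (l : List (V × V)) : SimpleGraph V :=
  SimpleGraph.fromEdgeSet {e | ∃ p ∈ l, s(p.1, p.2) = e}

omit [DecidableEq V] in
theorem listGraph_mono {l l' : List (V × V)} (h : ∀ p ∈ l, p ∈ l') :
    listGraph l ≤ listGraph l' := by
  apply SimpleGraph.fromEdgeSet_mono
  rintro e ⟨p, hp, rfl⟩
  exact ⟨p, h p hp, rfl⟩

omit [DecidableEq V] in
theorem listGraph_adj_or_eq {l : List (V × V)} {p : V × V} (hp : p ∈ l) :
    (listGraph l).Reachable p.1 p.2 := by
  by_cases h : p.1 = p.2
  · rw [h]
  · apply SimpleGraph.Adj.reachable
    rw [listGraph, SimpleGraph.fromEdgeSet_adj]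
    exact ⟨⟨p, hp, rfl⟩, h⟩

theorem reachable_iff_rep (l : List (V × V)) (u v : V) :
    (listGraph l).Reachable u v ↔ rep l u = rep l v := by
  induction l generalizing u v with
  | nil =>
    have : (listGraph ([] : List (V × V))) = ⊥ := by
      ext a b
      simp [listGraph]
    rw [this, SimpleGraph.reachable_bot]
    rfl
  | cons p l ih =>
    have hmono : listGraph l ≤ listGraph (p :: l) :=
      listGraph_mono fun q hq => List.mem_cons_of_mem _ hq
    constructor
    · rintro ⟨w⟩
      induction w with
      | nil => rfl
      | @cons a b c hadj _ ihw =>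
        rw [← ihw]
        rw [listGraph, SimpleGraph.fromEdgeSet_adj] at hadj
        obtain ⟨⟨q, hq, hqe⟩, hne⟩ := hadj
        rw [List.mem_cons] at hq
        rcases hq with rfl | hq
        · rw [Sym2.eq_iff] at hqe
          rcases hqe with ⟨rfl, rfl⟩ | ⟨rfl, rfl⟩ <;> simp only [rep] <;> split_ifs <;> simp_all
        · have : rep l a = rep l b := by
            rw [← ih]
            apply SimpleGraph.Adj.reachable
            rw [listGraph, SimpleGraph.fromEdgeSet_adj]
            exact ⟨⟨q, hq, hqe⟩, hne⟩
          simp only [rep, this]
    · intro h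
      have hp : (listGraph (p :: l)).Reachable p.1 p.2 :=
        listGraph_adj_or_eq (List.mem_cons_self)
      have lift : ∀ a b, rep l a = rep l b → (listGraph (p :: l)).Reachable a b :=
        fun a b hab => ((ih a b).2 hab).mono hmono
      simp only [rep] at h
      split_ifs at h with h1 h2 h2
      · exact lift _ _ (h1.trans h2.symm)
      · exact (lift _ _ h1).trans (hp.trans (lift _ _ h))
      · exact (lift _ _ h).trans (hp.symm.trans (lift _ _ h2.symm))
      · exact lift _ _ h

/-- Components correspond to representatives. -/
noncomputable def compEquiv [Fintype V] (l : List (V × V)) :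
    (listGraph l).ConnectedComponent ≃ {r : V // r ∈ (univ : Finset V).image (rep l)} where
  toFun c := ⟨c.lift (fun v => rep l v) (by
    intro u v p _
    exact (reachable_iff_rep l u v).1 ⟨p⟩), by
      induction c using SimpleGraph.ConnectedComponent.ind with
      | _ v => exact Finset.mem_image_of_mem _ (Finset.mem_univ v)⟩
  invFun r := (listGraph l).connectedComponentMk (Finset.mem_image.1 r.2).choose
  left_inv c := by
    induction c using SimpleGraph.ConnectedComponent.ind with
    | _ v =>
      rw [SimpleGraph.ConnectedComponent.eq, reachable_iff_rep]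
      have h : rep l v ∈ (univ : Finset V).image (rep l) :=
        Finset.mem_image_of_mem _ (Finset.mem_univ v)
      exact (Finset.mem_image.1 h).choose_spec.2
  right_inv r := by
    apply Subtype.ext
    exact (Finset.mem_image.1 r.2).choose_spec.2

theorem card_components [Fintype V] (l : List (V × V)) :
    Nat.card (listGraph l).ConnectedComponent = ((univ : Finset V).image (rep l)).card := by
  rw [Nat.card_congr (compEquiv l), Nat.card_eq_fintype_card, Fintype.card_coe]

theorem finprod_components [Fintype V] {M : Type*} [CommMonoid M] (l : List (V × V))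
    (φ : Set V → M) :
    ∏ᶠ c : (listGraph l).ConnectedComponent, φ c.supp =
      ∏ r ∈ (univ : Finset V).image (rep l), φ {v | rep l v = r} := by
  classical
  have : Fintype (listGraph l).ConnectedComponent := Fintype.ofFinite _
  rw [finprod_eq_prod_of_fintype,
    ← Finset.prod_coe_sort ((univ : Finset V).image (rep l)) (fun r => φ {v | rep l v = r})]
  apply Fintype.prod_equiv (compEquiv l)
  intro c
  congr 1
  induction c using SimpleGraph.ConnectedComponent.ind with
  | _ v =>
    ext u
    rw [SimpleGraph.ConnectedComponent.mem_supp_iff, SimpleGraph.ConnectedComponent.eq,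
      reachable_iff_rep]
    exact Iff.rfl

end Rep

section Run

variable {E M : Type*} [DecidableEq E] [AddCommMonoid M]

/-- Sum over all sublists, accumulating the chosen elements. -/
def run (val : List E → M) : List E → List E → M
  | [], acc => val acc
  | a :: L, acc => run val L acc + run val L (a :: acc)

theorem sum_run (f : Finset E → M) (val : List E → M)
    (h : ∀ acc : List E, acc.Nodup → f acc.toFinset = val acc) (L acc : List E)
    (hnd : (L ++ acc).Nodup) :
    ∑ A ∈ L.toFinset.powerset, f (A ∪ acc.toFinset) = run val L acc := by
  induction L generalizing acc with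
  | nil =>
    simp only [List.toFinset_nil, Finset.powerset_empty, Finset.sum_singleton, run]
    rw [Finset.empty_union]
    exact h acc (by simpa using hnd)
  | cons a L ih =>
    rw [List.cons_append, List.nodup_cons] at hnd
    have ha : a ∉ L.toFinset := by
      rw [List.mem_toFinset]
      exact fun hh => hnd.1 (List.mem_append_left _ hh)
    rw [List.toFinset_cons, Finset.sum_powerset_insert ha, run]
    congr 1
    · exact ih acc hnd.2
    · rw [← ih (a :: acc)]
      · apply Finset.sum_congr rfl
        intro A _
        congr 1
        rw [List.toFinset_cons, Finset.insert_union, Finset.union_insert]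
      · rw [List.nodup_append] at hnd ⊢
        obtain ⟨h1, h2, h3, h4⟩ := hnd
        refine ⟨h2, ?_, ?_⟩
        · rw [List.nodup_cons]
          exact ⟨fun hh => h1 (List.mem_append_right _ hh), h3⟩
        · intro x hx y hy
          rw [List.mem_cons] at hy
          rcases hy with rfl | hy
          · rintro rfl
            exact h1 (List.mem_append_left _ hx)
          · exact h4 x hx y hy

theorem sum_univ_run [Fintype E] (f : Finset E → M) (val : List E → M)
    (h : ∀ acc : List E, acc.Nodup → f acc.toFinset = val acc) (L : List E)
    (hnd : L.Nodup) (hL : L.toFinset = univ) :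
    ∑ A : Finset E, f A = run val L [] := by
  rw [← sum_run f val h L [] (by simpa using hnd), hL, Finset.powerset_univ]
  simp

end Run

section Poly

open Polynomial

/-- A polynomial with natural coefficients below `b` is determined by its value at `b`. -/
theorem poly_eq_of_eval {b : ℕ} (n : ℕ) : ∀ {p q : ℕ[X]}, p.natDegree ≤ n → q.natDegree ≤ n →
    (∀ i, p.coeff i < b) → (∀ i, q.coeff i < b) → p.eval b = q.eval b → p = q := by
  induction n with
  | zero =>
    intro p q hp hq _ _ h
    rw [eq_C_of_natDegree_le_zero hp, eq_C_of_natDegree_le_zero hq] at h ⊢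
    simpa using h
  | succ n ih =>
    intro p q hp hq hpb hqb h
    have hp' := divX_mul_X_add p
    have hq' := divX_mul_X_add q
    have e1 : p.eval b = p.divX.eval b * b + p.coeff 0 := by
      conv_lhs => rw [← hp']
      simp
    have e2 : q.eval b = q.divX.eval b * b + q.coeff 0 := by
      conv_lhs => rw [← hq']
      simp
    have hb : 0 < b := lt_of_le_of_lt (Nat.zero_le _) (hpb 0)
    have h0 : p.coeff 0 = q.coeff 0 := by
      have := congrArg (· % b) h
      simp only [e1, e2, Nat.mul_add_mod_self_right, Nat.mod_eq_of_lt (hpb 0),
        Nat.mod_eq_of_lt (hqb 0)] at this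
      exact this
    have h1 : p.divX.eval b = q.divX.eval b := by
      rw [e1, e2, h0] at h
      exact Nat.eq_of_mul_eq_mul_right hb (Nat.add_right_cancel h)
    have h2 : p.divX = q.divX := by
      apply ih
      · rw [natDegree_divX_eq_natDegree_tsub_one]; omega
      · rw [natDegree_divX_eq_natDegree_tsub_one]; omega
      · intro i; rw [coeff_divX]; exact hpb _
      · intro i; rw [coeff_divX]; exact hqb _
      · exact h1
    rw [← hp', ← hq', h2, h0]

/-- If two finite families of keys have the same generating function at a large number, then sums
over the two families of any function of the keys agree. -/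
theorem sum_eq_of_gen {ι κ M : Type*} [Fintype ι] [Fintype κ] [AddCommMonoid M]
    (f : ι → ℕ) (g : κ → ℕ) (b N : ℕ) (hf : ∀ i, f i ≤ N) (hg : ∀ j, g j ≤ N)
    (hb1 : Fintype.card ι < b) (hb2 : Fintype.card κ < b)
    (h : ∑ i, b ^ f i = ∑ j, b ^ g j) (φ : ℕ → M) :
    ∑ i, φ (f i) = ∑ j, φ (g j) := by
  classical
  have key : (∑ i, (X : ℕ[X]) ^ f i) = ∑ j, (X : ℕ[X]) ^ g j := by
    apply poly_eq_of_eval (b := b) N
    · apply natDegree_sum_le_of_forall_le
      intro i _
      rw [natDegree_X_pow]; exact hf i
    · apply natDegree_sum_le_of_forall_le
      intro i _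
      rw [natDegree_X_pow]; exact hg i
    · intro k
      rw [finsetSum_coeff]
      simp only [coeff_X_pow, Finset.sum_boole]
      refine lt_of_le_of_lt ?_ hb1
      simpa using Finset.card_le_univ _
    · intro k
      rw [finsetSum_coeff]
      simp only [coeff_X_pow, Finset.sum_boole]
      refine lt_of_le_of_lt ?_ hb2
      simpa using Finset.card_le_univ _
    · simpa [eval_finsetSum] using h
  have hc : ∀ k, (univ.filter fun i => f i = k).card = (univ.filter fun j => g j = k).card := by
    intro k
    have := congrArg (fun p => p.coeff k) key
    simp only [finsetSum_coeff, coeff_X_pow, Finset.sum_boole, Nat.cast_id] at this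
    simpa [eq_comm] using this
  have e1 : ∑ i, φ (f i) = ∑ k ∈ range (N + 1), (univ.filter fun i => f i = k).card • φ k := by
    rw [← Finset.sum_fiberwise_of_maps_to (s := univ) (t := range (N + 1)) (g := f)
      (fun i _ => Finset.mem_range.2 (Nat.lt_succ_of_le (hf i)))]
    apply Finset.sum_congr rfl
    intro k _
    rw [Finset.sum_congr rfl (g := fun _ => φ k)]
    · rw [Finset.sum_const]
    · intro i hi
      rw [(Finset.mem_filter.1 hi).2]
  have e2 : ∑ j, φ (g j) = ∑ k ∈ range (N + 1), (univ.filter fun j => g j = k).card • φ k := by
    rw [← Finset.sum_fiberwise_of_maps_to (s := univ) (t := range (N + 1)) (g := g)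
      (fun i _ => Finset.mem_range.2 (Nat.lt_succ_of_le (hg i)))]
    apply Finset.sum_congr rfl
    intro k _
    rw [Finset.sum_congr rfl (g := fun _ => φ k)]
    · rw [Finset.sum_const]
    · intro i hi
      rw [(Finset.mem_filter.1 hi).2]
  rw [e1, e2]
  apply Finset.sum_congr rfl
  intro k _
  rw [hc]

end Poly

end Pool.Agent.V11129
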