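import Mathlib

/-!
# A signed partition function of rooted graphs

`FF ends W S α β` is the sum over all `A ⊆ S` of `(-1/2)^|A|` times the product over `v ∈ W` of
`β v` if `v` is reached from the complement of `W` by edges in `A`, and of `α v` otherwise.
-/

set_option autoImplicit false

namespace Pool.Agent.V11129

open Finset

universe u v

variable {V : Type u} {E : Type v}

/-- Vertices reached from outside `W` by edges in `A`. -/
inductive Reached (ends : E → Sym2 V) (W : Finset V) (A : Finset E) : V → Prop
  | base {v : V} : v ∉ W → Reached ends W A v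
  | step {e : E} {u v : V} : e ∈ A → ends e = s(u, v) → Reached ends W A u → Reached ends W A v

theorem Reached.mono {ends : E → Sym2 V} {W W' : Finset V} {A A' : Finset E} (hW : W' ⊆ W)
    (hA : A ⊆ A') {v : V} (h : Reached ends W A v) : Reached ends W' A' v := by
  induction h with
  | base h => exact Reached.base fun hh => h (hW hh)
  | step he hee _ ih => exact Reached.step (hA he) hee ih

open Classical in
/-- The signed partition function. -/
noncomputable def FF (ends : E → Sym2 V) (W : Finset V) (S : Finset E) (α β : V → ℚ) : ℚ :=
  ∑ A ∈ S.powerset, (-1 / 2) ^ A.card * ∏ v ∈ W, if Reached ends W A v then β v else α v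

variable [DecidableEq E]

theorem FF_insert (ends : E → Sym2 V) (W : Finset V) (S : Finset E) (α β : V → ℚ) (e : E)
    (he : e ∉ S) : FF ends W (insert e S) α β = ∑ A ∈ S.powerset, (-1 / 2) ^ A.card *
      ((∏ v ∈ W, open Classical in if Reached ends W A v then β v else α v) -
        1 / 2 * ∏ v ∈ W, open Classical in if Reached ends W (insert e A) v then β v else α v) := by
  classical
  rw [FF, Finset.sum_powerset_insert he, ← Finset.sum_add_distrib]
  apply Finset.sum_congr rfl
  intro A hA
  have heA : e ∉ A := fun h => he (Finset.mem_powerset.1 hA h)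
  rw [Finset.card_insert_of_notMem heA, pow_succ]
  ring

/-- Irrelevant edges: loops, and edges with both ends outside `W`. -/
theorem reached_irrelevant (ends : E → Sym2 V) (W : Finset V) (A : Finset E) (e : E)
    (h : (ends e).IsDiag ∨ ∀ v ∈ ends e, v ∉ W) (v : V) :
    Reached ends W (insert e A) v ↔ Reached ends W A v := by
  constructor
  · intro h1
    induction h1 with
    | base h => exact Reached.base h
    | @step f u v hf hff _ ih =>
      rw [Finset.mem_insert] at hf
      rcases hf with rfl | hf
      · rcases h with h | h
        · rw [hff, Sym2.mk_isDiag_iff] at h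
          rwa [← h]
        · apply Reached.base
          apply h
          rw [hff]
          exact Sym2.mem_mk_right u v
      · exact Reached.step hf hff ih
  · exact Reached.mono (Finset.Subset.refl _) (Finset.subset_insert _ _)

theorem FF_irrelevant (ends : E → Sym2 V) (W : Finset V) (S : Finset E) (α β : V → ℚ) (e : E)
    (he : e ∉ S) (h : (ends e).IsDiag ∨ ∀ v ∈ ends e, v ∉ W) :
    FF ends W (insert e S) α β = 1 / 2 * FF ends W S α β := by
  classical
  rw [FF_insert ends W S α β e he, FF, Finset.mul_sum]
  apply Finset.sum_congr rfl
  intro A _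
  have e1 : (∏ u ∈ W, if Reached ends W (insert e A) u then β u else α u) =
      ∏ u ∈ W, if Reached ends W A u then β u else α u := by
    simp only [reached_irrelevant ends W A e h]
  rw [e1]
  ring

variable [DecidableEq V]

theorem reached_root (ends : E → Sym2 V) (W : Finset V) (A : Finset E) (e : E) (r v : V)
    (hr : r ∉ W) (hee : ends e = s(r, v)) (u : V) :
    Reached ends W (insert e A) u ↔ Reached ends (W.erase v) A u := by
  constructor
  · intro h1
    induction h1 with
    | base h => exact Reached.base fun hh => h (Finset.mem_of_mem_erase hh)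
    | @step f a b hf hff _ ih =>
      rw [Finset.mem_insert] at hf
      rcases hf with rfl | hf
      · rw [hee, Sym2.eq_iff] at hff
        rcases hff with ⟨rfl, rfl⟩ | ⟨rfl, rfl⟩
        · exact Reached.base (Finset.notMem_erase _ _)
        · exact Reached.base fun hh => hr (Finset.mem_of_mem_erase hh)
      · exact Reached.step hf hff ih
  · intro h1
    induction h1 with
    | @base a h =>
      by_cases hav : a = v
      · rw [hav]
        exact Reached.step (Finset.mem_insert_self _ _) hee (Reached.base hr)
      · exact Reached.base fun hh => h (Finset.mem_erase.2 ⟨hav, hh⟩)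
    | step hf hff _ ih => exact Reached.step (Finset.mem_insert_of_mem hf) hff ih

theorem FF_root (ends : E → Sym2 V) (W : Finset V) (S : Finset E) (α β : V → ℚ) (e : E)
    (he : e ∉ S) (r v : V) (hr : r ∉ W) (hv : v ∈ W) (hee : ends e = s(r, v)) :
    FF ends W (insert e S) α β = FF ends W S α β - 1 / 2 * β v * FF ends (W.erase v) S α β := by
  classical
  rw [FF_insert ends W S α β e he, FF, FF, Finset.mul_sum, ← Finset.sum_sub_distrib]
  apply Finset.sum_congr rfl
  intro A _
  have e1 : (∏ u ∈ W, if Reached ends W (insert e A) u then β u else α u) =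
      β v * ∏ u ∈ W.erase v, if Reached ends (W.erase v) A u then β u else α u := by
    simp only [reached_root ends W A e r v hr hee]
    rw [← Finset.mul_prod_erase W (fun u => if Reached ends (W.erase v) A u then β u else α u) hv]
    rw [if_pos (Reached.base (Finset.notMem_erase v W))]
  rw [e1]
  ring

/-- No edge leaves `W`. -/
theorem reached_closed (ends : E → Sym2 V) (W : Finset V) (A : Finset E)
    (h : ∀ e ∈ A, ∀ a b, ends e = s(a, b) → a ∉ W → b ∉ W) (v : V) :
    Reached ends W A v ↔ v ∉ W := by
  constructor
  · intro h1
    induction h1 with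
    | base h => exact h
    | step hf hff _ ih => exact h _ hf _ _ hff ih
  · exact Reached.base

theorem FF_closed (ends : E → Sym2 V) (W : Finset V) (S : Finset E) (α β : V → ℚ)
    (h : ∀ e ∈ S, ∀ a b, ends e = s(a, b) → a ∉ W → b ∉ W) :
    FF ends W S α β = (1 / 2) ^ S.card * ∏ v ∈ W, α v := by
  classical
  have h1 : ∀ A ∈ S.powerset, (-1 / 2 : ℚ) ^ A.card *
      (∏ v ∈ W, if Reached ends W A v then β v else α v) =
      ((-1 / 2 : ℚ) ^ A.card * 1 ^ (S.card - A.card)) * ∏ v ∈ W, α v := by
    intro A hA
    rw [one_pow, mul_one]
    congr 1
    apply Finset.prod_congr rfl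
    intro v hv
    rw [if_neg]
    rw [reached_closed ends W A (fun e he => h e (Finset.mem_powerset.1 hA he))]
    exact fun hh => hh hv
  rw [FF, Finset.sum_congr rfl h1, ← Finset.sum_mul, Finset.sum_pow_mul_eq_add_pow]
  norm_num

theorem FF_empty (ends : E → Sym2 V) (S : Finset E) (α β : V → ℚ) :
    FF ends ∅ S α β = (1 / 2) ^ S.card := by
  rw [FF_closed ends ∅ S α β (fun _ _ _ _ _ _ => Finset.notMem_empty _)]
  simp

/-- An isolated vertex. -/
theorem reached_isolated (ends : E → Sym2 V) (W : Finset V) (A : Finset E) (v : V)
    (h : ∀ e ∈ A, v ∉ ends e) (u : V) (hu : u ≠ v) :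
    Reached ends W A u ↔ Reached ends (W.erase v) A u := by
  constructor
  · exact Reached.mono (Finset.erase_subset _ _) (Finset.Subset.refl _)
  · intro h1
    have : u ≠ v → Reached ends W A u := by
      induction h1 with
      | base h => exact fun hne => Reached.base fun hh => h (Finset.mem_erase.2 ⟨hne, hh⟩)
      | @step f a b hf hff _ ih =>
        intro _
        refine Reached.step hf hff (ih ?_ ?_)
        · rintro rfl
          apply h f hf
          rw [hff]
          exact Sym2.mem_mk_left _ _
        · rintro rfl
          apply h f hf
          rw [hff]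
          exact Sym2.mem_mk_left _ _
    exact this hu

theorem not_reached_isolated (ends : E → Sym2 V) (W : Finset V) (A : Finset E) (v : V)
    (h : ∀ e ∈ A, v ∉ ends e) (hv : v ∈ W) : ¬ Reached ends W A v := by
  intro h1
  cases h1 with
  | base h => exact h hv
  | @step f a _ hf hff _ =>
    apply h f hf
    rw [hff]
    exact Sym2.mem_mk_right _ _

theorem FF_isolated (ends : E → Sym2 V) (W : Finset V) (S : Finset E) (α β : V → ℚ) (v : V)
    (h : ∀ e ∈ S, v ∉ ends e) (hv : v ∈ W) :
    FF ends W S α β = α v * FF ends (W.erase v) S α β := by
  classical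
  rw [FF, FF, Finset.mul_sum]
  apply Finset.sum_congr rfl
  intro A hA
  have hA' : ∀ e ∈ A, v ∉ ends e := fun e he => h e (Finset.mem_powerset.1 hA he)
  rw [← Finset.mul_prod_erase W (fun u => if Reached ends W A u then β u else α u) hv,
    if_neg (not_reached_isolated ends W A v hA' hv)]
  rw [Finset.prod_congr rfl (g := fun u => if Reached ends (W.erase v) A u then β u else α u)]
  · ring
  · intro u hu
    simp only [reached_isolated ends W A v hA' u (Finset.ne_of_mem_erase hu)]

/-- A pendant edge. -/
theorem reached_pendant_aux (ends : E → Sym2 V) (W : Finset V) (A : Finset E) (f : E) (v w : V)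
    (h : ∀ e ∈ A, v ∉ ends e) (hf : ends f = s(v, w)) (hvw : v ≠ w) (hv : v ∈ W) (u : V)
    (h1 : Reached ends W (insert f A) u) :
    (u ≠ v → Reached ends (W.erase v) A u) ∧ (u = v → Reached ends (W.erase v) A w) := by
  induction h1 with
  | @base b hb =>
    refine ⟨fun _ => Reached.base fun hh => hb (Finset.mem_of_mem_erase hh), ?_⟩
    intro hbv
    rw [hbv] at hb
    exact absurd hv hb
  | @step e a b he hee _ ih =>
    rw [Finset.mem_insert] at he
    rcases he with rfl | he
    · rw [hf, Sym2.eq_iff] at hee
      rcases hee with ⟨rfl, rfl⟩ | ⟨rfl, rfl⟩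
      · exact ⟨fun _ => ih.2 rfl, fun h => absurd h.symm hvw⟩
      · exact ⟨fun h => absurd rfl h, fun _ => ih.1 (Ne.symm hvw)⟩
    · have hne : v ∉ ends e := h e he
      rw [hee, Sym2.mem_iff, not_or] at hne
      exact ⟨fun _ => Reached.step he hee (ih.1 (Ne.symm hne.1)), fun h => absurd h.symm hne.2⟩

theorem reached_pendant (ends : E → Sym2 V) (W : Finset V) (A : Finset E) (f : E) (v w : V)
    (h : ∀ e ∈ A, v ∉ ends e) (hf : ends f = s(v, w)) (hvw : v ≠ w) (hv : v ∈ W) (u : V)
    (hu : u ≠ v) :
    Reached ends W (insert f A) u ↔ Reached ends (W.erase v) A u := by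
  constructor
  · exact fun h1 => (reached_pendant_aux ends W A f v w h hf hvw hv u h1).1 hu
  · intro h1
    have h2 := (reached_isolated ends W A v h u hu).2 h1
    exact h2.mono (Finset.Subset.refl _) (Finset.subset_insert _ _)

theorem reached_pendant_leaf (ends : E → Sym2 V) (W : Finset V) (A : Finset E) (f : E) (v w : V)
    (h : ∀ e ∈ A, v ∉ ends e) (hf : ends f = s(v, w)) (hvw : v ≠ w) (hv : v ∈ W) :
    Reached ends W (insert f A) v ↔ Reached ends (W.erase v) A w := by
  constructor
  · exact fun h1 => (reached_pendant_aux ends W A f v w h hf hvw hv v h1).2 rfl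
  · intro h1
    have h2 := (reached_isolated ends W A v h w (Ne.symm hvw)).2 h1
    refine Reached.step (Finset.mem_insert_self f A) ?_
      (h2.mono (Finset.Subset.refl _) (Finset.subset_insert _ _))
    rw [hf]
    exact Sym2.eq_swap

/-- Removing a pendant edge. -/
theorem FF_pendant (ends : E → Sym2 V) (W : Finset V) (S : Finset E) (α β : V → ℚ) (f : E)
    (hfS : f ∉ S) (v w : V) (h : ∀ e ∈ S, v ∉ ends e) (hf : ends f = s(v, w)) (hvw : v ≠ w)
    (hv : v ∈ W) (hw : w ∈ W) :
    FF ends W (insert f S) α β = FF ends (W.erase v) S
      (Function.update α w (α w * (1 / 2 * α v)))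
      (Function.update β w (β w * (α v - 1 / 2 * β v))) := by
  classical
  rw [FF_insert ends W S α β f hfS, FF]
  apply Finset.sum_congr rfl
  intro A hA
  have hA' : ∀ e ∈ A, v ∉ ends e := fun e he => h e (Finset.mem_powerset.1 hA he)
  have hw' : w ∈ W.erase v := Finset.mem_erase.2 ⟨Ne.symm hvw, hw⟩
  congr 1
  rw [← Finset.mul_prod_erase W (fun u => if Reached ends W A u then β u else α u) hv,
    ← Finset.mul_prod_erase W (fun u => if Reached ends W (insert f A) u then β u else α u) hv,
    if_neg (not_reached_isolated ends W A v hA' hv)]
  have e1 : ∏ x ∈ W.erase v, (if Reached ends W A x then β x else α x) =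
      ∏ x ∈ W.erase v, (if Reached ends (W.erase v) A x then β x else α x) := by
    apply Finset.prod_congr rfl
    intro u hu
    simp only [reached_isolated ends W A v hA' u (Finset.ne_of_mem_erase hu)]
  have e2 : ∏ x ∈ W.erase v, (if Reached ends W (insert f A) x then β x else α x) =
      ∏ x ∈ W.erase v, (if Reached ends (W.erase v) A x then β x else α x) := by
    apply Finset.prod_congr rfl
    intro u hu
    simp only [reached_pendant ends W A f v w hA' hf hvw hv u (Finset.ne_of_mem_erase hu)]
  rw [e1, e2]
  have e3 : ∏ x ∈ W.erase v, (if Reached ends (W.erase v) A x then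
      (Function.update β w (β w * (α v - 1 / 2 * β v))) x else
      (Function.update α w (α w * (1 / 2 * α v))) x) =
      (if Reached ends (W.erase v) A w then β w * (α v - 1 / 2 * β v) else
        α w * (1 / 2 * α v)) * ∏ x ∈ (W.erase v).erase w,
          (if Reached ends (W.erase v) A x then β x else α x) := by
    rw [← Finset.mul_prod_erase _ _ hw']
    simp only [Function.update_self]
    congr 1
    apply Finset.prod_congr rfl
    intro u hu
    rw [Function.update_of_ne (Finset.ne_of_mem_erase hu),
      Function.update_of_ne (Finset.ne_of_mem_erase hu)]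
  rw [e3, ← Finset.mul_prod_erase (W.erase v)
    (fun x => if Reached ends (W.erase v) A x then β x else α x) hw']
  simp only [reached_pendant_leaf ends W A f v w hA' hf hvw hv]
  split_ifs <;> ring

/-- An edge at a vertex that must stay unreached. -/
theorem FF_forbidden (ends : E → Sym2 V) (W : Finset V) (S : Finset E) (α β : V → ℚ) (f : E)
    (hfS : f ∉ S) (x w : V) (hf : ends f = s(x, w)) (hxw : x ≠ w) (hx : x ∈ W) (hw : w ∈ W)
    (hβ : β w = 0) :
    FF ends W (insert f S) α β = FF ends W S (Function.update α x (1 / 2 * α x)) β := by
  classical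
  rw [FF_insert ends W S α β f hfS, FF]
  apply Finset.sum_congr rfl
  intro A hA
  congr 1
  by_cases h1 : Reached ends W A w
  · have h2 : Reached ends W (insert f A) w := h1.mono (Finset.Subset.refl _)
      (Finset.subset_insert _ _)
    rw [← Finset.mul_prod_erase W (fun u => if Reached ends W A u then β u else α u) hw,
      ← Finset.mul_prod_erase W (fun u => if Reached ends W (insert f A) u then β u else α u) hw,
      ← Finset.mul_prod_erase W (fun u => if Reached ends W A u then β u else
        (Function.update α x (1 / 2 * α x)) u) hw, if_pos h1, if_pos h2, if_pos h1, hβ]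
    ring
  · by_cases h3 : Reached ends W A x
    · have h2 : Reached ends W (insert f A) w := Reached.step (Finset.mem_insert_self f A) hf
        (h3.mono (Finset.Subset.refl _) (Finset.subset_insert _ _))
      rw [← Finset.mul_prod_erase W
        (fun u => if Reached ends W (insert f A) u then β u else α u) hw, if_pos h2, hβ, zero_mul,
        mul_zero, sub_zero]
      apply Finset.prod_congr rfl
      intro u _
      by_cases hux : u = x
      · rw [hux, if_pos h3, if_pos h3]
      · rw [Function.update_of_ne hux]
    · have h4 : ∀ u, Reached ends W (insert f A) u ↔ Reached ends W A u := by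
        intro u
        constructor
        · intro h5
          induction h5 with
          | base h => exact Reached.base h
          | @step e a b he hee _ ih =>
            rw [Finset.mem_insert] at he
            rcases he with rfl | he
            · rw [hf, Sym2.eq_iff] at hee
              rcases hee with ⟨rfl, rfl⟩ | ⟨rfl, rfl⟩
              · exact absurd ih h3
              · exact absurd ih h1
            · exact Reached.step he hee ih
        · exact Reached.mono (Finset.Subset.refl _) (Finset.subset_insert _ _)
      simp only [h4]
      rw [← Finset.mul_prod_erase W (fun u => if Reached ends W A u then β u else α u) hx,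
        ← Finset.mul_prod_erase W (fun u => if Reached ends W A u then β u else
          (Function.update α x (1 / 2 * α x)) u) hx, if_neg h3, if_neg h3, Function.update_self]
      rw [Finset.prod_congr (rfl : W.erase x = W.erase x) (g := fun u =>
        if Reached ends W A u then β u else (Function.update α x (1 / 2 * α x)) u)]
      · ring
      · intro u hu
        rw [Function.update_of_ne (Finset.ne_of_mem_erase hu)]

/-- The partition function is linear in the pair of weights of a vertex. -/
theorem FF_linear (ends : E → Sym2 V) (W : Finset V) (S : Finset E) (α β : V → ℚ) (w : V)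
    (hw : w ∈ W) (a b a' b' : ℚ) :
    FF ends W S (Function.update α w a) (Function.update β w b) +
      FF ends W S (Function.update α w a') (Function.update β w b') =
      FF ends W S (Function.update α w (a + a')) (Function.update β w (b + b')) := by
  classical
  have key : ∀ (a b : ℚ) (A : Finset E), (∏ v ∈ W, if Reached ends W A v then
      (Function.update β w b) v else (Function.update α w a) v) =
      (if Reached ends W A w then b else a) * ∏ v ∈ W.erase w, (if Reached ends W A v then
        β v else α v) := by
    intro a b A
    rw [← Finset.mul_prod_erase W _ hw]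
    simp only [Function.update_self]
    congr 1
    apply Finset.prod_congr rfl
    intro u hu
    rw [Function.update_of_ne (Finset.ne_of_mem_erase hu),
      Function.update_of_ne (Finset.ne_of_mem_erase hu)]
  rw [FF, FF, FF, ← Finset.sum_add_distrib]
  apply Finset.sum_congr rfl
  intro A _
  rw [key, key, key]
  split_ifs <;> ring

/-- The partition function only depends on the weights on `W`. -/
theorem FF_congr (ends : E → Sym2 V) (W : Finset V) (S : Finset E) (α β α' β' : V → ℚ)
    (hα : ∀ v ∈ W, α v = α' v) (hβ : ∀ v ∈ W, β v = β' v) :
    FF ends W S α β = FF ends W S α' β' := by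
  classical
  rw [FF, FF]
  apply Finset.sum_congr rfl
  intro A _
  congr 1
  apply Finset.prod_congr rfl
  intro v hv
  rw [hα v hv, hβ v hv]

/-- Splitting `W` into two parts not joined by an edge. -/
theorem FF_split (ends : E → Sym2 V) (K L : Finset V) (hKL : Disjoint K L) (S T : Finset E)
    (hST : Disjoint S T) (α β : V → ℚ)
    (hS : ∀ e ∈ S, ∀ v ∈ ends e, v ∉ L) (hT : ∀ e ∈ T, ∀ v ∈ ends e, v ∉ K) :
    FF ends (K ∪ L) (S ∪ T) α β = FF ends K S α β * FF ends L T α β := by
  classical
  have hK : ∀ A ⊆ S, ∀ B ⊆ T, ∀ v ∈ K, (Reached ends (K ∪ L) (A ∪ B) v ↔ Reached ends K A v) := by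
    intro A hA B hB v hv
    constructor
    · intro h
      revert hv
      induction h with
      | base h => exact fun hv => absurd (Finset.mem_union_left _ hv) h
      | @step e a b he hee _ ih =>
        intro hb
        rcases Finset.mem_union.1 he with he | he
        · by_cases ha : a ∈ K
          · exact Reached.step he hee (ih ha)
          · exact Reached.step he hee (Reached.base ha)
        · exact absurd hb (hT e (hB he) b (by rw [hee]; exact Sym2.mem_mk_right _ _))
    · intro h
      revert hv
      induction h with
      | base h => exact fun hv => absurd hv h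
      | @step e a b he hee _ ih =>
        intro hb
        refine Reached.step (Finset.mem_union_left _ he) hee ?_
        by_cases ha : a ∈ K
        · exact ih ha
        · apply Reached.base
          rw [Finset.mem_union, not_or]
          exact ⟨ha, hS e (hA he) a (by rw [hee]; exact Sym2.mem_mk_left _ _)⟩
  have hL : ∀ A ⊆ S, ∀ B ⊆ T, ∀ v ∈ L, (Reached ends (K ∪ L) (A ∪ B) v ↔ Reached ends L B v) := by
    intro A hA B hB v hv
    constructor
    · intro h
      revert hv
      induction h with
      | base h => exact fun hv => absurd (Finset.mem_union_right _ hv) h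
      | @step e a b he hee _ ih =>
        intro hb
        rcases Finset.mem_union.1 he with he | he
        · exact absurd hb (hS e (hA he) b (by rw [hee]; exact Sym2.mem_mk_right _ _))
        · by_cases ha : a ∈ L
          · exact Reached.step he hee (ih ha)
          · exact Reached.step he hee (Reached.base ha)
    · intro h
      revert hv
      induction h with
      | base h => exact fun hv => absurd hv h
      | @step e a b he hee _ ih =>
        intro hb
        refine Reached.step (Finset.mem_union_right _ he) hee ?_
        by_cases ha : a ∈ L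
        · exact ih ha
        · apply Reached.base
          rw [Finset.mem_union, not_or]
          exact ⟨hT e (hB he) a (by rw [hee]; exact Sym2.mem_mk_left _ _), ha⟩
  rw [FF, FF, FF, Finset.sum_mul_sum, ← Finset.sum_product']
  refine Finset.sum_bij' (fun A _ => (A ∩ S, A ∩ T)) (fun p _ => p.1 ∪ p.2) ?_ ?_ ?_ ?_ ?_
  · intro A _
    rw [Finset.mem_product]
    exact ⟨Finset.mem_powerset.2 Finset.inter_subset_right,
      Finset.mem_powerset.2 Finset.inter_subset_right⟩
  · rintro ⟨A, B⟩ hp
    rw [Finset.mem_product, Finset.mem_powerset, Finset.mem_powerset] at hp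
    exact Finset.mem_powerset.2 (Finset.union_subset_union hp.1 hp.2)
  · intro A hA
    rw [Finset.mem_powerset] at hA
    simp only
    rw [← Finset.inter_union_distrib_left, Finset.inter_eq_left.2 hA]
  · rintro ⟨A, B⟩ hp
    rw [Finset.mem_product, Finset.mem_powerset, Finset.mem_powerset] at hp
    simp only at hp ⊢
    have h1 : B ∩ S = ∅ := by
      rw [← Finset.disjoint_iff_inter_eq_empty]
      exact (hST.mono_right hp.2).symm
    have h2 : A ∩ T = ∅ := by
      rw [← Finset.disjoint_iff_inter_eq_empty]
      exact hST.mono_left hp.1
    rw [Finset.union_inter_distrib_right, Finset.union_inter_distrib_right, h1, h2,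
      Finset.inter_eq_left.2 hp.1, Finset.inter_eq_left.2 hp.2, Finset.union_empty,
      Finset.empty_union]
  · intro A hA
    rw [Finset.mem_powerset] at hA
    have hAA : A = (A ∩ S) ∪ (A ∩ T) := by
      rw [← Finset.inter_union_distrib_left, Finset.inter_eq_left.2 hA]
    have hcard : A.card = (A ∩ S).card + (A ∩ T).card := by
      conv_lhs => rw [hAA]
      apply Finset.card_union_of_disjoint
      exact (hST.mono_left Finset.inter_subset_right).mono_right Finset.inter_subset_right
    have e1 : ∏ v ∈ K, (if Reached ends (K ∪ L) A v then β v else α v) =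
        ∏ v ∈ K, (if Reached ends K (A ∩ S) v then β v else α v) := by
      apply Finset.prod_congr rfl
      intro v hv
      have := hK (A ∩ S) Finset.inter_subset_right (A ∩ T) Finset.inter_subset_right v hv
      rw [← hAA] at this
      simp only [this]
    have e2 : ∏ v ∈ L, (if Reached ends (K ∪ L) A v then β v else α v) =
        ∏ v ∈ L, (if Reached ends L (A ∩ T) v then β v else α v) := by
      apply Finset.prod_congr rfl
      intro v hv
      have := hL (A ∩ S) Finset.inter_subset_right (A ∩ T) Finset.inter_subset_right v hv
      rw [← hAA] at this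
      simp only [this]
    rw [Finset.prod_union hKL, e1, e2, hcard, pow_add]
    ring

end Pool.Agent.V11129
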