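import Pool.Agent.V11129.RootedF

/-!
# Positivity of the signed partition function of rooted graphs
-/

set_option autoImplicit false

namespace Pool.Agent.V11129

open Finset

universe u v

variable {V : Type u} {E : Type v} [DecidableEq E] [DecidableEq V]

/-- The edges at `v` that are not loops. -/
noncomputable def inc (ends : E → Sym2 V) (S : Finset E) (v : V) : Finset E :=
  open Classical in S.filter fun e => v ∈ ends e ∧ ¬ (ends e).IsDiag

theorem mem_inc (ends : E → Sym2 V) (S : Finset E) (v : V) (e : E) :
    e ∈ inc ends S v ↔ e ∈ S ∧ v ∈ ends e ∧ ¬ (ends e).IsDiag := by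
  unfold inc
  simp only [Finset.mem_filter]

theorem inc_erase (ends : E → Sym2 V) (S : Finset E) (v : V) (e : E)
    (h : v ∉ ends e ∨ (ends e).IsDiag) : inc ends (S.erase e) v = inc ends S v := by
  ext f
  simp only [mem_inc, Finset.mem_erase]
  constructor
  · rintro ⟨⟨h1, h2⟩, h3, h4⟩
    exact ⟨h2, h3, h4⟩
  · rintro ⟨h2, h3, h4⟩
    refine ⟨⟨?_, h2⟩, h3, h4⟩
    rintro rfl
    rcases h with h | h
    · exact h h3
    · exact h4 h

/-- The function `F` of the proof. -/
noncomputable def GG (ends : E → Sym2 V) (W : Finset V) (S : Finset E) (ρ : V → ℚ) : ℚ :=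
  FF ends W S (fun v => -ρ v) (fun _ => -2)

/-- The hypotheses of the positivity theorem. -/
structure Good (ends : E → Sym2 V) (W : Finset V) (S : Finset E) (ρ : V → ℚ) : Prop where
  c1 : ∀ K ⊆ W, K.Nonempty → ∃ e ∈ S, ∃ a b, ends e = s(a, b) ∧ a ∈ K ∧ b ∉ K
  c2 : ∀ v ∈ W, 0 ≤ ρ v ∧ (ρ v ≤ 1 / 2 ∨ ρ v = 1)
  c3 : ∀ v ∈ W, (inc ends S v).card ≤ 1 → ρ v ≤ 1 / 2

theorem good_irrelevant (ends : E → Sym2 V) (W : Finset V) (S : Finset E) (ρ : V → ℚ)
    (h : Good ends W S ρ) (e : E) (he : (ends e).IsDiag ∨ ∀ v ∈ ends e, v ∉ W) :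
    Good ends W (S.erase e) ρ := by
  refine ⟨?_, h.c2, ?_⟩
  · intro K hK hne
    obtain ⟨f, hf, a, b, hab, ha, hb⟩ := h.c1 K hK hne
    refine ⟨f, Finset.mem_erase.2 ⟨?_, hf⟩, a, b, hab, ha, hb⟩
    rintro rfl
    rcases he with he | he
    · rw [hab, Sym2.mk_isDiag_iff] at he
      exact hb (he ▸ ha)
    · exact he a (by rw [hab]; exact Sym2.mem_mk_left _ _) (hK ha)
  · intro v hv hc
    apply h.c3 v hv
    rwa [inc_erase] at hc
    rcases he with he | he
    · exact Or.inr he
    · exact Or.inl fun hh => he v hh hv

theorem good_contract (ends : E → Sym2 V) (W : Finset V) (S : Finset E) (ρ : V → ℚ)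
    (h : Good ends W S ρ) (e : E) (v r : V) (hee : ends e = s(v, r)) (hr : r ∉ W) :
    Good ends (W.erase v) (S.erase e) ρ := by
  refine ⟨?_, fun u hu => h.c2 u (Finset.mem_of_mem_erase hu), ?_⟩
  · intro K hK hne
    obtain ⟨f, hf, a, b, hab, ha, hb⟩ := h.c1 K (hK.trans (Finset.erase_subset _ _)) hne
    refine ⟨f, Finset.mem_erase.2 ⟨?_, hf⟩, a, b, hab, ha, hb⟩
    rintro rfl
    have ha' := hK ha
    rw [Finset.mem_erase] at ha'
    rw [hee, Sym2.eq_iff] at hab
    rcases hab with ⟨h1, -⟩ | ⟨-, h1⟩
    · exact ha'.1 h1.symm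
    · exact hr (h1 ▸ ha'.2)
  · intro u hu hc
    rw [Finset.mem_erase] at hu
    apply h.c3 u hu.2
    rwa [inc_erase] at hc
    left
    rw [hee, Sym2.mem_iff, not_or]
    refine ⟨hu.1, ?_⟩
    rintro rfl
    exact hr hu.2

theorem prod_nonneg_of (W : Finset V) (ρ : V → ℚ)
    (h : ∀ v ∈ W, 0 ≤ ρ v ∧ (ρ v ≤ 1 / 2 ∨ ρ v = 1)) : 0 ≤ ∏ v ∈ W, ρ v :=
  Finset.prod_nonneg fun v hv => (h v hv).1

theorem le_one_of {x : ℚ} (h : x ≤ 1 / 2 ∨ x = 1) : x ≤ 1 := by
  rcases h with h | h <;> linarith

/-- Positivity. -/
theorem GG_pos (ends : E → Sym2 V) (n : ℕ) : ∀ (S : Finset E), S.card = n → ∀ (W : Finset V)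
    (ρ : V → ℚ), Good ends W S ρ → 0 < GG ends W S ρ ∧
      (W.Nonempty → 2 * (1 / 2) ^ S.card * ∏ v ∈ W, ρ v ≤ GG ends W S ρ) := by
  induction n using Nat.strong_induction_on with
  | _ n ih =>
  intro S hn W ρ hg
  have hprod := prod_nonneg_of W ρ hg.c2
  -- the empty case
  rcases W.eq_empty_or_nonempty with rfl | hW
  · refine ⟨?_, fun h => absurd h (by simp)⟩
    rw [GG, FF_empty]
    positivity
  -- irrelevant edges
  by_cases h0 : ∃ e ∈ S, (ends e).IsDiag ∨ ∀ v ∈ ends e, v ∉ W
  · obtain ⟨e, heS, he⟩ := h0
    have hcard := Finset.card_erase_add_one heS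
    obtain ⟨h1, h2⟩ := ih (S.erase e).card (by omega) (S.erase e) rfl W ρ
      (good_irrelevant ends W S ρ hg e he)
    have h3 : GG ends W S ρ = 1 / 2 * GG ends W (S.erase e) ρ := by
      conv_lhs => rw [← Finset.insert_erase heS]
      exact FF_irrelevant ends W (S.erase e) _ _ e (Finset.notMem_erase _ _) he
    refine ⟨by rw [h3]; linarith, fun hne => ?_⟩
    have h4 := h2 hne
    rw [h3, ← hcard, pow_succ]
    linarith
  push Not at h0
  have hnl : ∀ e ∈ S, ¬ (ends e).IsDiag := fun e he => (h0 e he).1
  -- splitting
  by_cases hA : ∃ K ⊆ W, K.Nonempty ∧ K ≠ W ∧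
      ∀ e ∈ S, ∀ a b, ends e = s(a, b) → a ∈ K → b ∈ W → b ∈ K
  · classical
    obtain ⟨K, hKW, hKne, hKW', hK⟩ := hA
    have hLne : (W \ K).Nonempty := by
      rw [Finset.sdiff_nonempty]
      exact fun h => hKW' (Finset.Subset.antisymm hKW h)
    set S1 := S.filter fun e => ∃ v ∈ ends e, v ∈ K with hS1
    set S2 := S.filter fun e => ¬ ∃ v ∈ ends e, v ∈ K with hS2
    have hS : S = S1 ∪ S2 := (Finset.filter_union_filter_not_eq _ _).symm
    have hdisj : Disjoint S1 S2 := Finset.disjoint_filter_filter_not _ _ _
    have hW' : W = K ∪ (W \ K) := (Finset.union_sdiff_of_subset hKW).symm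
    have hKL : Disjoint K (W \ K) := Finset.disjoint_sdiff
    have hT1 : ∀ e ∈ S1, ∀ v ∈ ends e, v ∉ W \ K := by
      intro e he v hv hvL
      rw [hS1, Finset.mem_filter] at he
      obtain ⟨heS, u, hu, huK⟩ := he
      rw [Finset.mem_sdiff] at hvL
      have huv : u ≠ v := by
        rintro rfl
        exact hvL.2 huK
      have hee : ends e = s(u, v) := by
        rw [← Sym2.mem_and_mem_iff huv]
        exact ⟨hu, hv⟩
      exact hvL.2 (hK e heS u v hee huK hvL.1)
    have hT2 : ∀ e ∈ S2, ∀ v ∈ ends e, v ∉ K := by
      intro e he v hv hvK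
      rw [hS2, Finset.mem_filter] at he
      exact he.2 ⟨v, hv, hvK⟩
    have hfac : GG ends W S ρ = GG ends K S1 ρ * GG ends (W \ K) S2 ρ := by
      conv_lhs => rw [hW', hS]
      exact FF_split ends K (W \ K) hKL S1 S2 hdisj _ _ hT1 hT2
    have hcard : S.card = S1.card + S2.card := by
      conv_lhs => rw [hS]
      exact Finset.card_union_of_disjoint hdisj
    have hS1ne : 0 < S1.card := by
      obtain ⟨e, he, a, b, hab, ha, hb⟩ := hg.c1 K hKW hKne
      apply Finset.card_pos.2
      refine ⟨e, ?_⟩
      rw [hS1, Finset.mem_filter]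
      exact ⟨he, a, by rw [hab]; exact Sym2.mem_mk_left _ _, ha⟩
    have hin2 : ∀ K' ⊆ W \ K, K'.Nonempty →
        ∃ e ∈ S2, ∃ a b, ends e = s(a, b) ∧ a ∈ K' ∧ b ∉ K' := by
      intro K' hK' hne
      obtain ⟨e, he, a, b, hab, ha, hb⟩ := hg.c1 K' (hK'.trans Finset.sdiff_subset) hne
      refine ⟨e, ?_, a, b, hab, ha, hb⟩
      rw [hS2, Finset.mem_filter]
      refine ⟨he, ?_⟩
      rintro ⟨v, hv, hvK⟩
      have ha' := hK' ha
      rw [Finset.mem_sdiff] at ha'
      rw [hab, Sym2.mem_iff] at hv
      rcases hv with rfl | rfl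
      · exact ha'.2 hvK
      · exact ha'.2 (hK e he v a (by rw [hab]; exact Sym2.eq_swap) hvK ha'.1)
    have hS2ne : 0 < S2.card := by
      obtain ⟨e, he, -⟩ := hin2 (W \ K) (Finset.Subset.refl _) hLne
      exact Finset.card_pos.2 ⟨e, he⟩
    have g1 : Good ends K S1 ρ := by
      refine ⟨?_, fun v hv => hg.c2 v (hKW hv), ?_⟩
      · intro K' hK' hne
        obtain ⟨e, he, a, b, hab, ha, hb⟩ := hg.c1 K' (hK'.trans hKW) hne
        refine ⟨e, ?_, a, b, hab, ha, hb⟩
        rw [hS1, Finset.mem_filter]
        exact ⟨he, a, by rw [hab]; exact Sym2.mem_mk_left _ _, hK' ha⟩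
      · intro v hv hc
        apply hg.c3 v (hKW hv)
        refine le_trans (Finset.card_le_card ?_) hc
        intro e he
        rw [mem_inc] at he ⊢
        refine ⟨?_, he.2⟩
        rw [hS1, Finset.mem_filter]
        exact ⟨he.1, v, he.2.1, hv⟩
    have g2 : Good ends (W \ K) S2 ρ := by
      refine ⟨hin2, fun v hv => hg.c2 v (Finset.mem_sdiff.1 hv).1, ?_⟩
      intro v hv hc
      rw [Finset.mem_sdiff] at hv
      apply hg.c3 v hv.1
      refine le_trans (Finset.card_le_card ?_) hc
      intro e he
      rw [mem_inc] at he ⊢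
      refine ⟨?_, he.2⟩
      rw [hS2, Finset.mem_filter]
      refine ⟨he.1, ?_⟩
      rintro ⟨u, hu, huK⟩
      have huv : u ≠ v := by
        rintro rfl
        exact hv.2 huK
      have hee : ends e = s(u, v) := by
        rw [← Sym2.mem_and_mem_iff huv]
        exact ⟨hu, he.2.1⟩
      exact hv.2 (hK e he.1 u v hee huK hv.1)
    obtain ⟨p1, b1⟩ := ih S1.card (by omega) S1 rfl K ρ g1
    obtain ⟨p2, b2⟩ := ih S2.card (by omega) S2 rfl (W \ K) ρ g2
    refine ⟨by rw [hfac]; exact mul_pos p1 p2, fun _ => ?_⟩
    have b1' := b1 hKne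
    have b2' := b2 hLne
    have n1 := prod_nonneg_of K ρ g1.c2
    have n2 := prod_nonneg_of (W \ K) ρ g2.c2
    have hpp : ∏ v ∈ W, ρ v = (∏ v ∈ K, ρ v) * ∏ v ∈ W \ K, ρ v := by
      conv_lhs => rw [hW']
      exact Finset.prod_union hKL
    rw [hfac, hcard, hpp, pow_add]
    have m1 : 0 ≤ 2 * (1 / 2 : ℚ) ^ S1.card * ∏ v ∈ K, ρ v := by positivity
    have m2 : 0 ≤ 2 * (1 / 2 : ℚ) ^ S2.card * ∏ v ∈ W \ K, ρ v := by positivity
    have m3 := mul_le_mul b1' b2' m2 p1.le
    have m4 : 2 * ((1 / 2 : ℚ) ^ S1.card * (1 / 2) ^ S2.card) *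
        ((∏ v ∈ K, ρ v) * ∏ v ∈ W \ K, ρ v) ≤
        (2 * (1 / 2 : ℚ) ^ S1.card * ∏ v ∈ K, ρ v) * (2 * (1 / 2 : ℚ) ^ S2.card *
          ∏ v ∈ W \ K, ρ v) := by
      have : 0 ≤ ((1 / 2 : ℚ) ^ S1.card * (1 / 2) ^ S2.card) *
        ((∏ v ∈ K, ρ v) * ∏ v ∈ W \ K, ρ v) := by positivity
      nlinarith
    exact m4.trans m3
  -- connected case
  obtain ⟨e, heS, v, r, hee, hv, hr⟩ := hg.c1 W (Finset.Subset.refl _) hW
  have hcard := Finset.card_erase_add_one heS
  have hpp : ∏ u ∈ W, ρ u = ρ v * ∏ u ∈ W.erase v, ρ u := (Finset.mul_prod_erase W ρ hv).symm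
  have hvr := hg.c2 v hv
  have hv1 := le_one_of hvr.2
  have g2 := good_contract ends W S ρ hg e v r hee hr
  obtain ⟨p2, b2⟩ := ih (S.erase e).card (by omega) (S.erase e) rfl (W.erase v) ρ g2
  have n2 := prod_nonneg_of (W.erase v) ρ g2.c2
  have hrec : GG ends W S ρ = GG ends W (S.erase e) ρ + GG ends (W.erase v) (S.erase e) ρ := by
    conv_lhs => rw [← Finset.insert_erase heS]
    rw [GG, FF_root ends W (S.erase e) _ _ e (Finset.notMem_erase _ _) r v hr hv
      (by rw [hee]; exact Sym2.eq_swap), GG, GG]
    ring
  have hein : e ∈ inc ends S v := by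
    rw [mem_inc, hee]
    exact ⟨heS, Sym2.mem_mk_left _ _, by rw [← hee]; exact hnl e heS⟩
  by_cases hB : ∃ e' ∈ S.erase e, ∃ a b, ends e' = s(a, b) ∧ a ∈ W ∧ b ∉ W
  · by_cases hB2 : ρ v ≤ 1 / 2 ∨ 3 ≤ (inc ends S v).card
    · have g1 : Good ends W (S.erase e) ρ := by
        refine ⟨?_, hg.c2, ?_⟩
        · intro K hKW hKne
          by_cases hKW' : K = W
          · rw [hKW']
            obtain ⟨e', he', a, b, hab, ha, hb⟩ := hB
            exact ⟨e', he', a, b, hab, ha, hb⟩
          · by_contra hcon
            apply hA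
            refine ⟨K, hKW, hKne, hKW', ?_⟩
            intro f hf a b hab ha hb
            by_contra hbK
            apply hcon
            refine ⟨f, Finset.mem_erase.2 ⟨?_, hf⟩, a, b, hab, ha, hbK⟩
            rintro rfl
            rw [hee, Sym2.eq_iff] at hab
            rcases hab with ⟨-, h1⟩ | ⟨-, h1⟩
            · exact hr (h1 ▸ hb)
            · exact hr (h1 ▸ hKW ha)
        · intro u hu hc
          by_cases huv : u = v
          · rw [huv] at hc ⊢
            rcases hB2 with hB2 | hB2
            · exact hB2
            · exfalso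
              have : inc ends (S.erase e) v = (inc ends S v).erase e := by
                ext f
                simp only [mem_inc, Finset.mem_erase]
                tauto
              rw [this, Finset.card_erase_of_mem hein] at hc
              omega
          · apply hg.c3 u hu
            rwa [inc_erase] at hc
            left
            rw [hee, Sym2.mem_iff, not_or]
            refine ⟨huv, ?_⟩
            rintro rfl
            exact hr hu
      obtain ⟨p1, b1⟩ := ih (S.erase e).card (by omega) (S.erase e) rfl W ρ g1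
      refine ⟨by rw [hrec]; linarith, fun hne => ?_⟩
      have b1' := b1 hne
      rw [hrec, ← hcard, pow_succ]
      have : 0 ≤ (1 / 2 : ℚ) ^ (S.erase e).card * ∏ v ∈ W, ρ v := by positivity
      linarith
    · push Not at hB2
      have hρv : ρ v = 1 := by
        rcases hvr.2 with h | h
        · exact absurd h (not_le.2 hB2.1)
        · exact h
      have hc2 : (inc ends S v).card = 2 := by
        have h1 : ¬ (inc ends S v).card ≤ 1 := fun h => absurd (hg.c3 v hv h) (not_le.2 hB2.1)
        omega
      have hc1 : ((inc ends S v).erase e).card = 1 := by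
        rw [Finset.card_erase_of_mem hein, hc2]
      obtain ⟨f, hf⟩ := Finset.card_eq_one.1 hc1
      have hfin : f ∈ (inc ends S v).erase e := by rw [hf]; exact Finset.mem_singleton_self f
      rw [Finset.mem_erase, mem_inc] at hfin
      obtain ⟨hfe, hfS, hvf, hfd⟩ := hfin
      have honly : ∀ g ∈ S, v ∈ ends g → g = e ∨ g = f := by
        intro g hg' hvg
        by_cases hge : g = e
        · exact Or.inl hge
        · right
          have : g ∈ (inc ends S v).erase e := by
            rw [Finset.mem_erase, mem_inc]
            exact ⟨hge, hg', hvg, hnl g hg'⟩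
          rw [hf, Finset.mem_singleton] at this
          exact this
      obtain ⟨w, hfw⟩ : ∃ w, ends f = s(v, w) := by
        rw [Sym2.mem_iff_exists] at hvf
        exact hvf
      have hvw : v ≠ w := by
        rintro rfl
        rw [hfw] at hfd
        exact hfd (Sym2.mk_isDiag_iff.2 rfl)
      have hfS' : f ∈ S.erase e := Finset.mem_erase.2 ⟨hfe, hfS⟩
      have hiso : ∀ g ∈ (S.erase e).erase f, v ∉ ends g := by
        intro g hg' hvg
        rw [Finset.mem_erase, Finset.mem_erase] at hg'
        rcases honly g hg'.2.2 hvg with h | h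
        · exact hg'.2.1 h
        · exact hg'.1 h
      have hcard2 := Finset.card_erase_add_one hfS'
      by_cases hwW : w ∈ W
      · -- pendant
        have hw' : w ∈ W.erase v := Finset.mem_erase.2 ⟨Ne.symm hvw, hwW⟩
        have key : GG ends W S ρ = GG ends (W.erase v) (S.erase e)
            (Function.update ρ w (ρ w / 2)) := by
          have e1 : GG ends W (S.erase e) ρ = FF ends (W.erase v) ((S.erase e).erase f)
              (Function.update (fun v => -ρ v) w (ρ w / 2))
              (Function.update (fun _ => -2) w 0) := by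
            conv_lhs => rw [← Finset.insert_erase hfS']
            rw [GG, FF_pendant ends W _ _ _ f (Finset.notMem_erase _ _) v w hiso hfw hvw hv hwW]
            rw [hρv]
            congr 2
            · ring
            · ring
          have e2 : GG ends (W.erase v) (S.erase e) ρ =
              GG ends (W.erase v) ((S.erase e).erase f) ρ +
                GG ends ((W.erase v).erase w) ((S.erase e).erase f) ρ := by
            conv_lhs => rw [← Finset.insert_erase hfS']
            rw [GG, FF_root ends (W.erase v) _ _ _ f (Finset.notMem_erase _ _) v w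
              (Finset.notMem_erase _ _) hw' hfw, GG, GG]
            ring
          have e3 : GG ends (W.erase v) (S.erase e) (Function.update ρ w (ρ w / 2)) =
              GG ends (W.erase v) ((S.erase e).erase f) (Function.update ρ w (ρ w / 2)) +
                GG ends ((W.erase v).erase w) ((S.erase e).erase f)
                  (Function.update ρ w (ρ w / 2)) := by
            conv_lhs => rw [← Finset.insert_erase hfS']
            rw [GG, FF_root ends (W.erase v) _ _ _ f (Finset.notMem_erase _ _) v w
              (Finset.notMem_erase _ _) hw' hfw, GG, GG]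
            ring
          have e4 : GG ends ((W.erase v).erase w) ((S.erase e).erase f)
              (Function.update ρ w (ρ w / 2)) =
              GG ends ((W.erase v).erase w) ((S.erase e).erase f) ρ := by
            apply FF_congr
            · intro u hu
              rw [Function.update_of_ne (Finset.ne_of_mem_erase hu)]
            · intro u _
              rfl
          have e5 := FF_linear ends (W.erase v) ((S.erase e).erase f) (fun v => -ρ v)
            (fun _ => -2) w hw' (ρ w / 2) 0 (-ρ w) (-2)
          have e6 : FF ends (W.erase v) ((S.erase e).erase f)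
              (Function.update (fun v => -ρ v) w (-ρ w))
              (Function.update (fun _ => -2) w (-2)) =
              GG ends (W.erase v) ((S.erase e).erase f) ρ := by
            apply FF_congr
            · intro u _
              by_cases h : u = w
              · rw [h, Function.update_self]
              · rw [Function.update_of_ne h]
            · intro u _
              by_cases h : u = w
              · rw [h, Function.update_self]
              · rw [Function.update_of_ne h]
          have e7 : FF ends (W.erase v) ((S.erase e).erase f)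
              (Function.update (fun v => -ρ v) w (ρ w / 2 + -ρ w))
              (Function.update (fun _ => -2) w (0 + -2)) =
              GG ends (W.erase v) ((S.erase e).erase f) (Function.update ρ w (ρ w / 2)) := by
            apply FF_congr
            · intro u _
              by_cases h : u = w
              · rw [h, Function.update_self, Function.update_self]
                ring
              · rw [Function.update_of_ne h, Function.update_of_ne h]
            · intro u _
              by_cases h : u = w
              · rw [h, Function.update_self]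
                ring
              · rw [Function.update_of_ne h]
          rw [hrec, e1, e2, e3, e4, ← e7, ← e5, e6]
          ring
        have g3 : Good ends (W.erase v) (S.erase e) (Function.update ρ w (ρ w / 2)) := by
          refine ⟨g2.c1, ?_, ?_⟩
          · intro u hu
            by_cases h : u = w
            · rw [h, Function.update_self]
              have := hg.c2 w hwW
              have h1 := le_one_of this.2
              exact ⟨by linarith [this.1], Or.inl (by linarith)⟩
            · rw [Function.update_of_ne h]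
              exact g2.c2 u hu
          · intro u hu hc
            by_cases h : u = w
            · rw [h, Function.update_self]
              have h1 := le_one_of (hg.c2 w hwW).2
              linarith
            · rw [Function.update_of_ne h]
              exact g2.c3 u hu hc
        obtain ⟨p3, b3⟩ := ih (S.erase e).card (by omega) (S.erase e) rfl (W.erase v) _ g3
        refine ⟨by rw [key]; exact p3, fun _ => ?_⟩
        have b3' := b3 ⟨w, hw'⟩
        rw [key, ← hcard, pow_succ, hpp, hρv]
        have hprod' : ∏ u ∈ W.erase v, Function.update ρ w (ρ w / 2) u =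
            1 / 2 * ∏ u ∈ W.erase v, ρ u := by
          rw [← Finset.mul_prod_erase (W.erase v) ρ hw',
            ← Finset.mul_prod_erase (W.erase v) (Function.update ρ w (ρ w / 2)) hw',
            Function.update_self, Finset.prod_congr rfl (g := ρ)]
          · ring
          · intro u hu
            rw [Function.update_of_ne (Finset.ne_of_mem_erase hu)]
        rw [hprod'] at b3'
        linarith
      · -- `W = {v}`
        have hWv : W = {v} := by
          by_contra hne
          apply hA
          refine ⟨{v}, by simpa using hv, Finset.singleton_nonempty v, fun h => hne h.symm, ?_⟩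
          intro g hg' a b hab ha hb
          rw [Finset.mem_singleton] at ha
          subst ha
          rcases honly g hg' (by rw [hab]; exact Sym2.mem_mk_left _ _) with h | h
          · rw [h, hee, Sym2.eq_iff] at hab
            rcases hab with ⟨-, h1⟩ | ⟨-, h1⟩
            · exact absurd (h1 ▸ hb) hr
            · exact absurd (h1 ▸ hv) hr
          · rw [h, hfw, Sym2.eq_iff] at hab
            rcases hab with ⟨-, h1⟩ | ⟨-, h1⟩
            · exact absurd (h1 ▸ hb) hwW
            · exact absurd (h1 ▸ hv) hwW
        have hWe : W.erase v = ∅ := by rw [hWv]; simp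
        have e1 : GG ends W (S.erase e) ρ = 0 := by
          conv_lhs => rw [← Finset.insert_erase hfS']
          rw [GG, FF_root ends W _ _ _ f (Finset.notMem_erase _ _) w v hwW hv
            (by rw [hfw]; exact Sym2.eq_swap), hWe, FF_empty, hWv, FF_closed]
          · simp [hρv]
          · intro g hg' a b hab _ hb
            rw [Finset.mem_singleton] at hb
            apply hiso g hg'
            rw [hab, ← hb]
            exact Sym2.mem_mk_right _ _
        have e2 : GG ends (W.erase v) (S.erase e) ρ = (1 / 2) ^ (S.erase e).card := by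
          rw [hWe, GG, FF_empty]
        rw [e1, e2, zero_add] at hrec
        refine ⟨by rw [hrec]; positivity, fun _ => ?_⟩
        rw [hrec, ← hcard, pow_succ, hpp, hρv, hWe, Finset.prod_empty]
        linarith
  · -- only one root edge
    have hclosed : ∀ e' ∈ S.erase e, ∀ a b, ends e' = s(a, b) → a ∉ W → b ∉ W := by
      intro e' he' a b hab ha hb
      apply hB
      exact ⟨e', he', b, a, by rw [hab]; exact Sym2.eq_swap, hb, ha⟩
    have e1 : GG ends W (S.erase e) ρ = (1 / 2) ^ (S.erase e).card * ∏ u ∈ W, -ρ u :=
      FF_closed ends W (S.erase e) _ _ hclosed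
    have e1' : |∏ u ∈ W, -ρ u| = ∏ u ∈ W, ρ u := by
      rw [Finset.abs_prod]
      apply Finset.prod_congr rfl
      intro u hu
      rw [abs_neg, abs_of_nonneg (hg.c2 u hu).1]
    have e1'' : -(∏ u ∈ W, ρ u) ≤ ∏ u ∈ W, -ρ u := by
      rw [← e1']
      exact neg_abs_le _
    by_cases hWe : W.erase v = ∅
    · have hWv : W = {v} := by
        rw [← Finset.insert_erase hv, hWe]
        rfl
      have e2 : GG ends (W.erase v) (S.erase e) ρ = (1 / 2) ^ (S.erase e).card := by
        rw [hWe, GG, FF_empty]
      have hle : (inc ends S v).card ≤ 1 := by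
        rw [Finset.card_le_one]
        have : ∀ g ∈ inc ends S v, g = e := by
          intro g hg'
          by_contra hge
          rw [mem_inc] at hg'
          obtain ⟨hgS, hvg, hgd⟩ := hg'
          rw [Sym2.mem_iff_exists] at hvg
          obtain ⟨w, hw⟩ := hvg
          apply hB
          refine ⟨g, Finset.mem_erase.2 ⟨hge, hgS⟩, v, w, hw, hv, ?_⟩
          rw [hWv, Finset.mem_singleton]
          rintro rfl
          rw [hw] at hgd
          exact hgd (Sym2.mk_isDiag_iff.2 rfl)
        intro a ha b hb
        rw [this a ha, this b hb]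
      have hρ := hg.c3 v hv hle
      have e3 : GG ends W S ρ = (1 / 2) ^ (S.erase e).card * (1 - ρ v) := by
        rw [hrec, e1, e2, hWv, Finset.prod_singleton]
        ring
      have hpow : (0 : ℚ) < (1 / 2) ^ (S.erase e).card := by positivity
      refine ⟨?_, fun _ => ?_⟩
      · rw [e3]
        exact mul_pos hpow (by linarith)
      · rw [e3, ← hcard, pow_succ, hWv, Finset.prod_singleton]
        nlinarith
    · have hne := Finset.nonempty_iff_ne_empty.2 hWe
      have b2' := b2 hne
      have hpow : (0 : ℚ) < (1 / 2) ^ (S.erase e).card := by positivity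
      have m1 : (1 / 2 : ℚ) ^ (S.erase e).card * -(∏ u ∈ W, ρ u) ≤ GG ends W (S.erase e) ρ := by
        rw [e1]
        exact mul_le_mul_of_nonneg_left e1'' hpow.le
      rw [hpp] at m1
      have m2 : ρ v * ∏ u ∈ W.erase v, ρ u ≤ ∏ u ∈ W.erase v, ρ u := by
        nlinarith
      have m3 : (1 / 2 : ℚ) ^ (S.erase e).card * (ρ v * ∏ u ∈ W.erase v, ρ u) ≤
          (1 / 2 : ℚ) ^ (S.erase e).card * ∏ u ∈ W.erase v, ρ u :=
        mul_le_mul_of_nonneg_left m2 hpow.le
      refine ⟨?_, fun _ => ?_⟩
      · rw [hrec]
        rcases n2.eq_or_lt with h | h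
        · rw [← h] at m1
          linarith
        · have : 0 < (1 / 2 : ℚ) ^ (S.erase e).card * ∏ u ∈ W.erase v, ρ u := mul_pos hpow h
          linarith
      · rw [hrec, ← hcard, pow_succ, hpp]
        linarith

/-- An edge leaving a set that contains a reached vertex. -/
theorem exists_exit (ends : E → Sym2 V) (W : Finset V) (S : Finset E) (K : Finset V) (hK : K ⊆ W)
    (v : V) (h : Reached ends W S v) (hv : v ∈ K) :
    ∃ e ∈ S, ∃ a b, ends e = s(a, b) ∧ a ∈ K ∧ b ∉ K := by
  induction h with
  | base h => exact absurd (hK hv) h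
  | @step e u v he hee _ ih =>
    by_cases hu : u ∈ K
    · exact ih hu
    · exact ⟨e, he, v, u, by rw [hee]; exact Sym2.eq_swap, hv, hu⟩

/-- The hypothesis of the nonvanishing theorem at a vertex. -/
def VOk (ends : E → Sym2 V) (W : Finset V) (S : Finset E) (α β : V → ℚ) (v : V) : Prop :=
  (β v = 0 ∧ α v ≠ 0) ∨ (β v = -2 ∧ ((-1 / 2 ≤ α v ∧ α v < 0) ∨
    (α v = -1 ∧ ((inc ends S v).card = 1 → ∀ e ∈ inc ends S v, ∀ u ∈ ends e, u ∈ W))))

/-- Nonvanishing. -/
theorem FF_ne_zero (ends : E → Sym2 V) (n : ℕ) : ∀ (S : Finset E) (W : Finset V) (α β : V → ℚ),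
    S.card + W.card = n → (∀ v ∈ W, VOk ends W S α β v) → FF ends W S α β ≠ 0 := by
  induction n using Nat.strong_induction_on with
  | _ n ih =>
  intro S W α β hn hok
  by_cases h0 : ∃ e ∈ S, (ends e).IsDiag ∨ ∀ v ∈ ends e, v ∉ W
  · obtain ⟨e, heS, he⟩ := h0
    have hcard := Finset.card_erase_add_one heS
    rw [← Finset.insert_erase heS, FF_irrelevant ends W (S.erase e) _ _ e
      (Finset.notMem_erase _ _) he]
    refine mul_ne_zero (by norm_num) (ih _ (by omega) (S.erase e) W α β rfl ?_)
    intro v hv
    have := hok v hv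
    unfold VOk at this ⊢
    rwa [inc_erase]
    rcases he with he | he
    · exact Or.inr he
    · exact Or.inl fun hh => he v hh hv
  push Not at h0
  have hnl : ∀ e ∈ S, ¬ (ends e).IsDiag := fun e he => (h0 e he).1
  by_cases h1 : ∃ w ∈ W, β w = 0
  · obtain ⟨w, hw, hβ⟩ := h1
    have hαw : α w ≠ 0 := by
      rcases hok w hw with h | h
      · exact h.2
      · rw [hβ] at h
        norm_num at h
    by_cases hiso : ∀ e ∈ S, w ∉ ends e
    · have hcardW := Finset.card_erase_add_one hw
      rw [FF_isolated ends W S α β w hiso hw]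
      refine mul_ne_zero hαw (ih _ (by omega) S (W.erase w) α β rfl ?_)
      intro v hv
      have := hok v (Finset.mem_of_mem_erase hv)
      unfold VOk at this ⊢
      rcases this with h | ⟨h, h' | ⟨h', h''⟩⟩
      · exact Or.inl h
      · exact Or.inr ⟨h, Or.inl h'⟩
      · refine Or.inr ⟨h, Or.inr ⟨h', fun hc e he u hu => ?_⟩⟩
        rw [Finset.mem_erase]
        refine ⟨?_, h'' hc e he u hu⟩
        rintro rfl
        exact hiso e ((mem_inc ends S v e).1 he).1 hu
    · push Not at hiso
      obtain ⟨e, heS, hwe⟩ := hiso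
      have hcard := Finset.card_erase_add_one heS
      rw [Sym2.mem_iff_exists] at hwe
      obtain ⟨x, hx⟩ := hwe
      have hxw : x ≠ w := by
        rintro rfl
        exact hnl e heS (by rw [hx]; exact Sym2.mk_isDiag_iff.2 rfl)
      have hother : ∀ v, v ≠ w → v ≠ x → inc ends (S.erase e) v = inc ends S v := by
        intro v h1 h2
        apply inc_erase
        left
        rw [hx, Sym2.mem_iff, not_or]
        exact ⟨h1, h2⟩
      by_cases hxW : x ∈ W
      · rw [← Finset.insert_erase heS, FF_forbidden ends W (S.erase e) α β e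
          (Finset.notMem_erase _ _) x w (by rw [hx]; exact Sym2.eq_swap) hxw hxW hw hβ]
        refine ih _ (by omega) (S.erase e) W _ β rfl ?_
        intro v hv
        have := hok v hv
        unfold VOk at this ⊢
        by_cases hvx : v = x
        · subst hvx
          rw [Function.update_self]
          rcases this with h | ⟨h, h' | ⟨h', -⟩⟩
          · exact Or.inl ⟨h.1, mul_ne_zero (by norm_num) h.2⟩
          · exact Or.inr ⟨h, Or.inl ⟨by linarith, by linarith⟩⟩
          · exact Or.inr ⟨h, Or.inl ⟨by linarith, by linarith⟩⟩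
        · rw [Function.update_of_ne hvx]
          by_cases hvw : v = w
          · subst hvw
            exact Or.inl ⟨hβ, hαw⟩
          · rwa [hother v hvw hvx]
      · rw [← Finset.insert_erase heS, FF_root ends W (S.erase e) α β e
          (Finset.notMem_erase _ _) x w hxW hw (by rw [hx]; exact Sym2.eq_swap), hβ]
        rw [mul_zero, zero_mul, sub_zero]
        refine ih _ (by omega) (S.erase e) W α β rfl ?_
        intro v hv
        have := hok v hv
        unfold VOk at this ⊢
        by_cases hvw : v = w
        · subst hvw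
          exact Or.inl ⟨hβ, hαw⟩
        · rw [hother v hvw]
          · exact this
          · rintro rfl
            exact hxW hv
  push Not at h1
  have hβ2 : ∀ v ∈ W, β v = -2 := by
    intro v hv
    rcases hok v hv with h | h
    · exact absurd h.1 (h1 v hv)
    · exact h.1
  by_cases h2 : ∃ v ∈ W, α v = -1 ∧ (inc ends S v).card = 1
  · obtain ⟨v, hv, hα, hc⟩ := h2
    obtain ⟨f, hf⟩ := Finset.card_eq_one.1 hc
    have hfin : f ∈ inc ends S v := by rw [hf]; exact Finset.mem_singleton_self f
    have hfW : ∀ u ∈ ends f, u ∈ W := by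
      rcases hok v hv with h | ⟨-, h | ⟨-, h⟩⟩
      · exact absurd h.1 (h1 v hv)
      · rw [hα] at h
        norm_num at h
      · exact h hc f hfin
    rw [mem_inc] at hfin
    obtain ⟨hfS, hvf, hfd⟩ := hfin
    rw [Sym2.mem_iff_exists] at hvf
    obtain ⟨w, hfw⟩ := hvf
    have hvw : v ≠ w := by
      rintro rfl
      rw [hfw] at hfd
      exact hfd (Sym2.mk_isDiag_iff.2 rfl)
    have hwW : w ∈ W := hfW w (by rw [hfw]; exact Sym2.mem_mk_right _ _)
    have hcard := Finset.card_erase_add_one hfS
    have hcardW := Finset.card_erase_add_one hv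
    have hiso : ∀ g ∈ S.erase f, v ∉ ends g := by
      intro g hg hvg
      rw [Finset.mem_erase] at hg
      have : g ∈ inc ends S v := (mem_inc ends S v g).2 ⟨hg.2, hvg, hnl g hg.2⟩
      rw [hf, Finset.mem_singleton] at this
      exact hg.1 this
    rw [← Finset.insert_erase hfS, FF_pendant ends W (S.erase f) α β f (Finset.notMem_erase _ _)
      v w hiso hfw hvw hv hwW]
    refine ih _ (by omega) (S.erase f) (W.erase v) _ _ rfl ?_
    intro u hu
    have huW := Finset.mem_of_mem_erase hu
    have := hok u huW
    unfold VOk at this ⊢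
    by_cases huw : u = w
    · subst huw
      rw [Function.update_self, Function.update_self]
      left
      rw [hα, hβ2 v hv]
      refine ⟨by ring, ?_⟩
      have hαu : α u ≠ 0 := by
        rcases this with h | ⟨-, h | ⟨h, -⟩⟩
        · exact h.2
        · exact h.2.ne
        · rw [h]; norm_num
      exact mul_ne_zero hαu (by norm_num)
    · rw [Function.update_of_ne huw, Function.update_of_ne huw]
      have hinc : inc ends (S.erase f) u = inc ends S u := by
        apply inc_erase
        left
        rw [hfw, Sym2.mem_iff, not_or]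
        exact ⟨Finset.ne_of_mem_erase hu, huw⟩
      rcases this with h | ⟨h, h' | ⟨h', h''⟩⟩
      · exact Or.inl h
      · exact Or.inr ⟨h, Or.inl h'⟩
      · refine Or.inr ⟨h, Or.inr ⟨h', fun hc' e he z hz => ?_⟩⟩
        rw [Finset.mem_erase]
        constructor
        · rintro rfl
          exact hiso e ((mem_inc ends (S.erase f) u e).1 he).1 hz
        · rw [hinc] at hc' he
          exact h'' hc' e he z hz
  · push Not at h2
    classical
    set K := W.filter fun v => ¬ Reached ends W S v with hKdef
    set L := W.filter fun v => Reached ends W S v with hLdef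
    have hW' : W = K ∪ L := by
      rw [hKdef, hLdef, Finset.union_comm]
      exact (Finset.filter_union_filter_not_eq _ _).symm
    have hKL : Disjoint K L := (Finset.disjoint_filter_filter_not _ _ _).symm
    set S1 := S.filter fun e => ∃ v ∈ ends e, v ∈ K with hS1
    set S2 := S.filter fun e => ¬ ∃ v ∈ ends e, v ∈ K with hS2
    have hS : S = S1 ∪ S2 := (Finset.filter_union_filter_not_eq _ _).symm
    have hdisj : Disjoint S1 S2 := Finset.disjoint_filter_filter_not _ _ _
    have hedge : ∀ e ∈ S, ∀ a b, ends e = s(a, b) → b ∈ K → a ∈ K := by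
      intro e he a b hab hb
      rw [hKdef, Finset.mem_filter] at hb ⊢
      by_contra hcon
      apply hb.2
      refine Reached.step he hab ?_
      by_cases haW : a ∈ W
      · by_contra har
        exact hcon ⟨haW, har⟩
      · exact Reached.base haW
    have hT1 : ∀ e ∈ S1, ∀ v ∈ ends e, v ∉ L := by
      intro e he v hv hvL
      rw [hS1, Finset.mem_filter] at he
      obtain ⟨heS, u, hu, huK⟩ := he
      have huv : u ≠ v := by
        rintro rfl
        exact Finset.disjoint_left.1 hKL huK hvL
      have hee : ends e = s(v, u) := by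
        rw [← Sym2.mem_and_mem_iff (Ne.symm huv)]
        exact ⟨hv, hu⟩
      exact Finset.disjoint_left.1 hKL (hedge e heS v u hee huK) hvL
    have hT2 : ∀ e ∈ S2, ∀ v ∈ ends e, v ∉ K := by
      intro e he v hv hvK
      rw [hS2, Finset.mem_filter] at he
      exact he.2 ⟨v, hv, hvK⟩
    have hα : ∀ v ∈ W, (-1 / 2 ≤ α v ∧ α v < 0) ∨ (α v = -1 ∧ (inc ends S v).card ≠ 1) := by
      intro v hv
      rcases hok v hv with h | ⟨-, h | ⟨h, -⟩⟩
      · exact absurd h.1 (h1 v hv)
      · exact Or.inl h
      · exact Or.inr ⟨h, h2 v hv h⟩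
    have hfac : FF ends W S α β = FF ends K S1 α β * FF ends L S2 α β := by
      conv_lhs => rw [hW', hS]
      exact FF_split ends K L hKL S1 S2 hdisj _ _ hT1 hT2
    rw [hfac]
    apply mul_ne_zero
    · rw [FF_closed]
      · refine mul_ne_zero (by positivity) (Finset.prod_ne_zero_iff.2 ?_)
        intro v hv
        rcases hα v (Finset.mem_filter.1 hv).1 with h | h
        · exact h.2.ne
        · rw [h.1]; norm_num
      · intro e he a b hab ha hb
        exact ha (hedge e (Finset.mem_filter.1 he).1 a b hab hb)
    · have e1 : FF ends L S2 α β = GG ends L S2 (fun v => -α v) := by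
        apply FF_congr
        · intro v _
          simp
        · intro v hv
          exact hβ2 v (Finset.mem_filter.1 hv).1
      rw [e1]
      have hincL : ∀ v ∈ L, inc ends S2 v = inc ends S v := by
        intro v hv
        ext e
        rw [mem_inc, mem_inc]
        constructor
        · rintro ⟨h1, h2⟩
          exact ⟨(Finset.mem_filter.1 h1).1, h2⟩
        · rintro ⟨h1, h2⟩
          refine ⟨?_, h2⟩
          rw [hS2, Finset.mem_filter]
          refine ⟨h1, ?_⟩
          rintro ⟨u, hu, huK⟩
          have hmem : e ∈ S1 := by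
            rw [hS1, Finset.mem_filter]
            exact ⟨h1, u, hu, huK⟩
          exact hT1 e hmem v h2.1 hv
      have hgood : Good ends L S2 (fun v => -α v) := by
        refine ⟨?_, ?_, ?_⟩
        · intro K' hK' hne
          obtain ⟨v, hv⟩ := hne
          obtain ⟨e, he, a, b, hab, ha, hb⟩ := exists_exit ends W S K'
            (hK'.trans (Finset.filter_subset _ _)) v (Finset.mem_filter.1 (hK' hv)).2 hv
          refine ⟨e, ?_, a, b, hab, ha, hb⟩
          rw [hS2, Finset.mem_filter]
          refine ⟨he, ?_⟩
          rintro ⟨u, hu, huK⟩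
          have hmem : e ∈ S1 := by
            rw [hS1, Finset.mem_filter]
            exact ⟨he, u, hu, huK⟩
          exact hT1 e hmem a (by rw [hab]; exact Sym2.mem_mk_left _ _) (hK' ha)
        · intro v hv
          rcases hα v (Finset.mem_filter.1 hv).1 with h | h
          · exact ⟨by linarith, Or.inl (by linarith)⟩
          · exact ⟨by rw [h.1]; norm_num, Or.inr (by rw [h.1]; norm_num)⟩
        · intro v hv hc
          rcases hα v (Finset.mem_filter.1 hv).1 with h | h
          · linarith
          · exfalso
            rw [hincL v hv] at hc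
            have hLW : L ⊆ W := Finset.filter_subset _ _
            obtain ⟨e, he, a, b, hab, ha, hb⟩ := exists_exit ends W S {v}
              (by simpa using hLW hv) v (Finset.mem_filter.1 hv).2 (Finset.mem_singleton_self v)
            rw [Finset.mem_singleton] at ha hb
            have : e ∈ inc ends S v := by
              rw [mem_inc, hab, ha]
              exact ⟨he, Sym2.mem_mk_left _ _, fun h => hb (Sym2.mk_isDiag_iff.1 h).symm⟩
            have hpos : 0 < (inc ends S v).card := Finset.card_pos.2 ⟨e, this⟩
            exact h.2 (by omega)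
      exact (GG_pos ends _ S2 rfl L _ hgood).1.ne'

end Pool.Agent.V11129
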