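import Pool.Agent.V11129.TutteDef

/-!
# Comparing Tutte polynomials of small multigraphs by computation
-/

set_option autoImplicit false

namespace Pool.Agent.V11129

open Finset

/-- Merge the labels of `a` and `b`. -/
def mergeLab (lab : List ℕ) (a b : ℕ) : List ℕ :=
  lab.map fun z => bif Nat.beq z (lab.getD a 0) then lab.getD b 0 else z

/-- Boolean membership. -/
def memb (a : ℕ) : List ℕ → Bool
  | [] => false
  | b :: l => bif Nat.beq a b then true else memb a l

/-- Number of distinct entries. -/
def distinct : List ℕ → ℕ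
  | [] => 0
  | a :: l => bif memb a l then distinct l else Nat.succ (distinct l)

/-- The generating function of rank and size, evaluated at `b`. -/
def runLab (b n : ℕ) : List (ℕ × ℕ) → List ℕ → ℕ → ℕ
  | [], lab, s => Nat.pow b (Nat.add (Nat.mul 16 (Nat.sub n (distinct lab))) s)
  | p :: L, lab, s =>
    Nat.add (runLab b n L lab s) (runLab b n L (mergeLab lab p.1 p.2) (Nat.succ s))

theorem memb_eq (a : ℕ) (l : List ℕ) : memb a l = decide (a ∈ l) := by
  induction l with
  | nil => simp [memb]
  | cons b l ih =>
    simp only [memb, ih, List.mem_cons]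
    by_cases h : a = b
    · simp [h]
    · have : Nat.beq a b = false := by
        rw [← Bool.not_eq_true, Nat.beq_eq]
        exact h
      simp [this, h]

theorem distinct_eq (l : List ℕ) : distinct l = l.toFinset.card := by
  induction l with
  | nil => simp [distinct]
  | cons a l ih =>
    simp only [distinct, memb_eq, ih, List.toFinset_cons]
    by_cases h : a ∈ l
    · rw [Finset.insert_eq_of_mem (List.mem_toFinset.2 h)]
      simp [h]
    · rw [Finset.card_insert_of_notMem (fun hh => h (List.mem_toFinset.1 hh))]
      simp [h]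

variable {n : ℕ}

/-- The list of labels attached to a list of edges. -/
def labs (l : List (Fin n × Fin n)) : List ℕ :=
  (List.finRange n).map fun v : Fin n => ((rep l v : Fin n) : ℕ)

theorem labs_nil : labs ([] : List (Fin n × Fin n)) = List.range n := by
  simp [labs, rep, List.map_coe_finRange_eq_range]

theorem labs_getD (l : List (Fin n × Fin n)) (v : Fin n) : (labs l).getD v 0 = rep l v := by
  simp [labs, List.getD_eq_getElem?_getD]

theorem labs_cons (l : List (Fin n × Fin n)) (p : Fin n × Fin n) :
    mergeLab (labs l) p.1 p.2 = labs (p :: l) := by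
  unfold mergeLab
  rw [labs_getD, labs_getD]
  unfold labs
  rw [List.map_map]
  apply List.map_congr_left
  intro v _
  simp only [Function.comp, rep]
  by_cases h : rep l v = rep l p.1
  · simp [h]
  · have : Nat.beq ((rep l v : Fin n) : ℕ) ((rep l p.1 : Fin n) : ℕ) = false := by
      rw [← Bool.not_eq_true, Nat.beq_eq]
      exact fun hh => h (Fin.ext hh)
    simp [this, h]

theorem distinct_labs (l : List (Fin n × Fin n)) :
    distinct (labs l) = ((univ : Finset (Fin n)).image (rep l)).card := by
  rw [distinct_eq]
  have : (labs l).toFinset = ((univ : Finset (Fin n)).image (rep l)).map Fin.valEmbedding := by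
    ext x
    simp [labs]
  rw [this, Finset.card_map]

variable {m : ℕ}

/-- The unordered ends. -/
def endsOf (P : Fin m → Fin n × Fin n) : Fin m → Sym2 (Fin n) := fun e => s((P e).1, (P e).2)

theorem spanningSub_endsOf (P : Fin m → Fin n × Fin n) (acc : List (Fin m)) :
    spanningSub (endsOf P) acc.toFinset = listGraph (acc.map P) := by
  unfold spanningSub listGraph endsOf
  congr 1
  ext e
  simp

theorem rk_endsOf (P : Fin m → Fin n × Fin n) (acc : List (Fin m)) :
    rk (endsOf P) acc.toFinset = n - distinct (labs (acc.map P)) := by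
  rw [rk, spanningSub_endsOf, card_components, distinct_labs, Fintype.card_fin]

/-- The key of an edge set. -/
noncomputable def key (P : Fin m → Fin n × Fin n) (A : Finset (Fin m)) : ℕ :=
  16 * rk (endsOf P) A + A.card

theorem run_eq_runLab (b : ℕ) (P : Fin m → Fin n × Fin n) (L acc : List (Fin m)) :
    run (fun acc => b ^ (16 * (n - distinct (labs (acc.map P))) + acc.length)) L acc =
      runLab b n (L.map fun e => (((P e).1 : ℕ), ((P e).2 : ℕ))) (labs (acc.map P))
        acc.length := by
  induction L generalizing acc with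
  | nil => rfl
  | cons a L ih =>
    rw [run, ih, ih, List.map_cons]
    simp only [List.map_cons, List.length_cons]
    rw [← labs_cons]
    rfl

theorem sum_pow_key (b : ℕ) (P : Fin m → Fin n × Fin n) :
    ∑ A : Finset (Fin m), b ^ key P A =
      runLab b n ((List.finRange m).map fun e => (((P e).1 : ℕ), ((P e).2 : ℕ)))
        (List.range n) 0 := by
  rw [sum_univ_run (fun A => b ^ key P A)
    (fun acc => b ^ (16 * (n - distinct (labs (acc.map P))) + acc.length)) ?_
    (List.finRange m) (List.nodup_finRange m) (by ext; simp), run_eq_runLab]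
  · rw [List.map_nil, labs_nil]
    rfl
  · intro acc hacc
    simp only [key]
    rw [rk_endsOf, List.toFinset_card_of_nodup hacc]

theorem rk_le (P : Fin m → Fin n × Fin n) (A : Finset (Fin m)) : rk (endsOf P) A ≤ n := by
  rw [rk, Fintype.card_fin]
  exact Nat.sub_le _ _

/-- If the generating functions agree at a large number, the Tutte polynomials agree. -/
theorem tuttePoly_eq (P Q : Fin m → Fin n × Fin n) (b : ℕ) (hb : 2 ^ m < b) (hm : m < 16)
    (hR : rk (endsOf P) univ = rk (endsOf Q) univ)
    (h : runLab b n ((List.finRange m).map fun e => (((P e).1 : ℕ), ((P e).2 : ℕ)))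
        (List.range n) 0 =
      runLab b n ((List.finRange m).map fun e => (((Q e).1 : ℕ), ((Q e).2 : ℕ)))
        (List.range n) 0) :
    tuttePoly (endsOf P) = tuttePoly (endsOf Q) := by
  have hcard : ∀ A : Finset (Fin m), A.card ≤ m := fun A => by
    simpa using Finset.card_le_univ A
  have hkey : ∀ (P : Fin m → Fin n × Fin n) (A : Finset (Fin m)), key P A ≤ 16 * n + m :=
    fun P A => Nat.add_le_add (Nat.mul_le_mul_left _ (rk_le P A)) (hcard A)
  have hc2 : Fintype.card (Finset (Fin m)) < b := by simpa using hb
  have e := sum_eq_of_gen (key P) (key Q) b (16 * n + m) (hkey P) (hkey Q) hc2 hc2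
    (by rw [sum_pow_key, sum_pow_key, h])
    (fun k => ((MvPolynomial.X 0 - 1 : MvPolynomial (Fin 2) ℤ) ^
      (rk (endsOf P) univ - k / 16) * (MvPolynomial.X 1 - 1) ^ (k % 16 - k / 16)))
  have hdiv : ∀ (P : Fin m → Fin n × Fin n) (A : Finset (Fin m)),
      key P A / 16 = rk (endsOf P) A ∧ key P A % 16 = A.card := by
    intro P A
    have := hcard A
    unfold key
    omega
  simp only [(hdiv _ _).1, (hdiv _ _).2] at e
  unfold tuttePoly
  rw [e, hR]

section Induce

variable {V : Type*} [DecidableEq V]

/-- Reachability in an induced subgraph, by deleting the edges that leave the set. -/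
theorem induce_reachable_iff (l : List (V × V)) (s : Set V) [DecidablePred (· ∈ s)]
    (u v : V) (hu : u ∈ s) (hv : v ∈ s) :
    ((listGraph l).induce s).Reachable ⟨u, hu⟩ ⟨v, hv⟩ ↔
      rep (l.filter fun p => decide (p.1 ∈ s) && decide (p.2 ∈ s)) u =
        rep (l.filter fun p => decide (p.1 ∈ s) && decide (p.2 ∈ s)) v := by
  rw [← reachable_iff_rep]
  constructor
  · rintro ⟨w⟩
    have : ∀ (a b : s) (w : ((listGraph l).induce s).Walk a b),
        (listGraph (l.filter fun p => decide (p.1 ∈ s) && decide (p.2 ∈ s))).Reachable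
          (a : V) (b : V) := by
      intro a b w
      induction w with
      | nil => exact SimpleGraph.Reachable.refl _
      | @cons a b c hadj _ ih =>
        refine SimpleGraph.Reachable.trans (SimpleGraph.Adj.reachable ?_) ih
        rw [SimpleGraph.comap_adj, listGraph, SimpleGraph.fromEdgeSet_adj] at hadj
        obtain ⟨⟨q, hq, hqe⟩, hne⟩ := hadj
        rw [listGraph, SimpleGraph.fromEdgeSet_adj]
        refine ⟨⟨q, List.mem_filter.2 ⟨hq, ?_⟩, hqe⟩, hne⟩
        rw [Sym2.eq_iff] at hqe
        rcases hqe with ⟨h1, h2⟩ | ⟨h1, h2⟩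
        · have e1 : q.1 ∈ s := by rw [h1]; exact a.2
          have e2 : q.2 ∈ s := by rw [h2]; exact b.2
          simp [e1, e2]
        · have e1 : q.1 ∈ s := by rw [h1]; exact b.2
          have e2 : q.2 ∈ s := by rw [h2]; exact a.2
          simp [e1, e2]
    exact this _ _ w
  · rintro ⟨w⟩
    have : ∀ (a b : V) (_ : (listGraph
        (l.filter fun p => decide (p.1 ∈ s) && decide (p.2 ∈ s))).Walk a b)
        (ha : a ∈ s) (hb : b ∈ s),
        ((listGraph l).induce s).Reachable ⟨a, ha⟩ ⟨b, hb⟩ := by
      intro a b w
      induction w with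
      | nil => intro ha hb; exact SimpleGraph.Reachable.refl _
      | @cons a b c hadj _ ih =>
        intro ha hc
        rw [listGraph, SimpleGraph.fromEdgeSet_adj] at hadj
        obtain ⟨⟨q, hq, hqe⟩, hne⟩ := hadj
        rw [List.mem_filter] at hq
        have hq2 := hq.2
        simp only [Bool.and_eq_true, decide_eq_true_eq] at hq2
        have hb : b ∈ s := by
          rw [Sym2.eq_iff] at hqe
          rcases hqe with ⟨h1, h2⟩ | ⟨h1, h2⟩
          · rw [← h2]; exact hq2.2
          · rw [← h1]; exact hq2.1
        refine SimpleGraph.Reachable.trans (SimpleGraph.Adj.reachable ?_) (ih hb hc)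
        rw [SimpleGraph.comap_adj, listGraph, SimpleGraph.fromEdgeSet_adj]
        exact ⟨⟨q, hq.1, hqe⟩, hne⟩
    exact this _ _ w hu hv

theorem induce_connected_iff (l : List (V × V)) (s : Set V) [DecidablePred (· ∈ s)] :
    ((listGraph l).induce s).Connected ↔ (∃ v, v ∈ s) ∧ ∀ u v, u ∈ s → v ∈ s →
      rep (l.filter fun p => decide (p.1 ∈ s) && decide (p.2 ∈ s)) u =
        rep (l.filter fun p => decide (p.1 ∈ s) && decide (p.2 ∈ s)) v := by
  constructor
  · intro h
    obtain ⟨⟨v, hv⟩⟩ := h.nonempty
    refine ⟨⟨v, hv⟩, fun u v hu hv => ?_⟩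
    rw [← induce_reachable_iff l s u v hu hv]
    exact h.preconnected _ _
  · rintro ⟨⟨v, hv⟩, h⟩
    have : Nonempty s := ⟨⟨v, hv⟩⟩
    refine ⟨fun a b => ?_⟩
    exact (induce_reachable_iff l s a b a.2 b.2).2 (h _ _ a.2 b.2)

theorem connected_iff (l : List (V × V)) [Nonempty V] :
    (listGraph l).Connected ↔ ∀ u v, rep l u = rep l v := by
  constructor
  · intro h u v
    exact (reachable_iff_rep l u v).1 (h.preconnected u v)
  · intro h
    exact ⟨fun u v => (reachable_iff_rep l u v).2 (h u v)⟩

end Induce

end Pool.Agent.V11129
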